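import Pool.Agent.Lib.DN.Iface

/-!
# Theorem DN: the interface of parts T (tower at `P`), C (theta series, hidden symmetry) and of the input of part V

Author helper36. Every `S_...` is a statement which is proved by ONE part and used by others. Nothing is proved here.
Proofs: notes T, C of helper36. A false or awkward statement: mail helper36 at once.

`f` odd, `15 ∣ f`; the smoothing ideal `m` and the ideals `b` are prime to `2 f`; the modulus of the theta series is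
`2 f`. `M` is a LEVEL: an ODD multiple of `lev f m R`. The theta series of modulus `2 f` transform under `Γ_0(4 M)`, the
combinations `etE` (values at `r/2`) under `Γ_0(M)`.
-/

set_option autoImplicit false

open scoped Pointwise Topology
open Filter

noncomputable section

namespace Pool.Agent.DN

open Pool.Agent.MuZ Pool.Agent.FW NumberField
open Pool.Agent.DI (io ofC io_inj exists_io io_ofC ofC_io VP MP UP TP ex sqr sqr_sq kap)

/-! ## Definitions -/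

/-- The conditions on `f` and `m`. -/
structure FM {n t : ℕ} (f : ℕ) (m : Ideal (OO n t)) : Prop where
  odd : Odd f
  dvd : 15 ∣ f
  ne : m ≠ ⊥
  two : PrI m 2
  cop : PrI m f

/-- The conditions on `b`. -/
structure FB {n t : ℕ} (f : ℕ) (b : Ideal (OO n t)) : Prop where
  ne : b ≠ ⊥
  cop : PrI b (2 * f)

/-- The conditions on the set `R`. -/
def FR {n t : ℕ} (f : ℕ) (R : Finset (Ideal (OO n t))) : Prop := ∀ b ∈ R, FB f b

/-- The minimal level. -/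
def lev {n t : ℕ} (f : ℕ) (m : Ideal (OO n t)) (R : Finset (Ideal (OO n t))) : ℕ :=
  Dk n t * f ^ 2 * (NI m * ∏ b ∈ R, NI b) ^ 3

/-- `M` is a level for `R`. -/
structure IsLv {n t : ℕ} (f : ℕ) (m : Ideal (OO n t)) (R : Finset (Ideal (OO n t))) (M : ℕ) : Prop where
  odd : Odd M
  three : 3 ≤ M
  dvd : lev f m R ∣ M

/-- `M` is a level for `R` and for a system of representatives modulo `2 f`: then the functions `etaM (2 f) m (α b)`,
`b ∈ R`, `α ∈ tm f`, have the level `M` (they depend only on the class of `α b` modulo `2 f`). -/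
structure IsLw {n t : ℕ} (f : ℕ) (m : Ideal (OO n t)) (R : Finset (Ideal (OO n t))) (M : ℕ) : Prop where
  lv : IsLv f m R M
  ex : ∃ R2 : Finset (Ideal (OO n t)), FR f R2 ∧ IsRC (2 * f) R2 ∧ IsLv f m R2 M

/-- A system of representatives of the `v = 1` modulo `F0`, prime to `2`, modulo `F0 2^N` (`F0` odd). -/
structure IsG {n t : ℕ} (F0 N : ℕ) (A : Finset (OO n t)) : Prop where
  mem : ∀ α ∈ A, (F0 : OO n t) ∣ α - 1 ∧ Cop α 2
  ex : ∀ v : OO n t, (F0 : OO n t) ∣ v - 1 → Cop v 2 → ∃ α ∈ A, ((F0 * 2 ^ N : ℕ) : OO n t) ∣ v - α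
  uni : ∀ α ∈ A, ∀ α' ∈ A, ((F0 * 2 ^ N : ℕ) : OO n t) ∣ α - α' → α = α'

open Classical in
/-- The finite set of the `v ∈ 1/F + Lam b` with `F² N(b) |v|² = j`. -/
def vN {n t : ℕ} (F : ℕ) (b : Ideal (OO n t)) (j : ℕ) : Finset ℂ :=
  if h : {v : ℂ | v - 1 / F ∈ Lam b ∧ (F : ℝ) ^ 2 * NI b * ‖v‖ ^ 2 = j}.Finite then h.toFinset else ∅

open Classical in
/-- The coefficient of `e(j z)` in `fr(b) ThM F m b z`. -/
def cM {n t : ℕ} (F : ℕ) (m b : Ideal (OO n t)) (j : ℕ) : ℂ :=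
  ∑ v ∈ vN F (m * b) j, (if v - 1 / F ∈ Lam b then (1 - NI m : ℂ) else 1) * v⁻¹

/-- `κ(b) = 2 ℘(1/2)/fr(b)²` for the lattice `Lam b`: `2 X(1/2) + A1²/6`. -/
def kp {n t : ℕ} (b : Ideal (OO n t)) : Om := 2 * xO b (1 / 2) + a1O b ^ 2 / 6

/-- `y_b(r) = (1/2) ∑ κ(α b)^k η_(α b)(r/2)`, `α ∈ tm f`: an element of the ray class field modulo `f`. -/
def yE {n t : ℕ} (f k : ℕ) (m b : Ideal (OO n t)) (r : ℚ) : Om :=
  1 / 2 * ∑ α ∈ tm n t f, kp (sp α * b) ^ k * etaM (2 * f) m (sp α * b) (r / 2)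

/-! ## Part T: the inertia group at `P` and the points of order `2^N` -/

/-- The roots of unity `zt P v`; `c3`. -/
def S_T0 : Prop :=
  c3 ^ 3 = 2 ∧ ∀ (n t : ℕ) [Ine n t] (P : Ideal ZZ), Ab2 P → ∀ v u : OO n t, Cop v 2 → Cop u 2 →
    zt P v ^ 3 = 1 ∧ TP P 2 (zt P v - toO v) ∧ zt P (v * u) = zt P v * zt P u ∧
    ((2 : OO n t) ∣ v - u ↔ zt P v = zt P u) ∧ (¬ (2 : OO n t) ∣ v - 1 → zt P v ^ 2 + zt P v + 1 = 0) ∧
    ∀ σ ∈ P.inertia Gal(Om/ℚ), σ (zt P v) = zt P v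

/-- The inertia group acts on the points of order `F0 2^N` (`F0` odd) as the group of the `α = 1` modulo `F0`, prime
to `2`; its action on `c3`. -/
def S_T1 : Prop :=
  ∀ (n t : ℕ) [Ine n t] (P : Ideal ZZ), Ab2 P →
    (∀ σ ∈ P.inertia Gal(Om/ℚ), σ ∈ GK n t) ∧
    ∀ F0 N : ℕ, Odd F0 → 15 ∣ F0 →
      (∀ σ ∈ P.inertia Gal(Om/ℚ), ∃ α : OO n t, (F0 : OO n t) ∣ α - 1 ∧ Cop α 2 ∧
        Psi σ (F0 * 2 ^ N) (sp α)) ∧
      (∀ α : OO n t, (F0 : OO n t) ∣ α - 1 → Cop α 2 →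
        ∃ σ ∈ P.inertia Gal(Om/ℚ), Psi σ (F0 * 2 ^ N) (sp α)) ∧
      ∀ σ ∈ P.inertia Gal(Om/ℚ), ∀ α : OO n t, 1 ≤ N → (F0 : OO n t) ∣ α - 1 → Cop α 2 →
        Psi σ (F0 * 2 ^ N) (sp α) → σ c3 = zt P α * c3

/-- The trace over the inertia group modulo the inertia group of level `2^N`: `2^N` divides the trace of `c3 x`. -/
def S_T2 : Prop :=
  ∀ (n t : ℕ) [Ine n t] (P : Ideal ZZ), Ab2 P → ∀ (F0 N : ℕ) (A : Finset (OO n t))
    (s : OO n t → Gal(Om/ℚ)), Odd F0 → 15 ∣ F0 → 1 ≤ N → IsG F0 N A →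
    (∀ α ∈ A, s α ∈ P.inertia Gal(Om/ℚ) ∧ Psi (s α) (F0 * 2 ^ N) (sp α)) → ∀ y : Om,
    (∀ σ ∈ P.inertia Gal(Om/ℚ), Psi σ (F0 * 2 ^ N) (⊤ : Ideal (OO n t)) → σ y = y) → VP P (y / c3) →
      TP P (2 ^ N) (∑ α ∈ A, s α y)

/-! ## Part C -/

/-- Transformation under `Γ_0(4 M)`, on the values (modulus `2 f`). -/
def S_C1 : Prop :=
  ∀ (n t : ℕ) [Ine n t] (f M : ℕ) (m b : Ideal (OO n t)), FM f m → FB f b → IsLv f m {b} M →
    ∀ (a b' c d : ℤ), G0 (4 * M) a b' c d → a ≠ 0 ∧ d ≠ 0 ∧ ∀ r : ℚ, r.den.Coprime M →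
      (c : ℚ) * r + d ≠ 0 ∧
      etaM (2 * f) m b ((a * r + b') / (c * r + d)) =
        (eps n t d : Om) * (rO b (sp (a : OO n t) * b) / a) *
          (etaM (2 * f) m (sp (a : OO n t) * b) r - etaM (2 * f) m (sp (a : OO n t) * b) 0) +
        etaM (2 * f) m b (b' / d)

/-- Transformation under `Γ_1(4 M)`, on the upper half plane. -/
def S_C2 : Prop :=
  ∀ (n t : ℕ) [Ine n t] (f M : ℕ) (m b : Ideal (OO n t)), FM f m → FB f b → IsLv f m {b} M →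
    ∀ (a b' c d : ℤ), G0 (4 * M) a b' c d → (4 * M : ℤ) ∣ d - 1 → ∀ z : ℂ, 0 < z.im →
      ThM (2 * f) m b ((a * z + b') / (c * z + d)) =
        ThM (2 * f) m b z + io (etaM (2 * f) m b (b' / d) - etaM (2 * f) m b 0)

/-- Expansions at all cusps. -/
def S_C3 : Prop :=
  ∀ (n t : ℕ) [Ine n t] (f M : ℕ) (m b : Ideal (OO n t)), FM f m → FB f b → IsLv f m {b} M →
    ∀ (a b' c d : ℤ), a * d - b' * c = 1 →
    ∃ (c0 : ℂ) (cf : ℕ → ℂ) (C : ℝ), (∀ j, ‖cf j‖ ≤ C * (j + 1) ^ 3) ∧ ∀ z : ℂ, 0 < z.im →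
      HasSum (fun j : ℕ => cf j * ex ((j + 1) * z / (4 * M : ℕ)))
        (ThM (2 * f) m b ((a * z + b') / (c * z + d)) - c0)

/-- The values at `c/q`, `q` prime to `N m`: the limit exists, it is algebraic; the formula for `b` prime to `2 f q`
(then `(1 + 2 f γ)/(2 f q)`, `γ ∈ O/q`, are the `z` modulo `Lam b` with `q z = 1/(2 f)`). -/
def S_C4 : Prop :=
  ∀ (n t : ℕ) [Ine n t] (f : ℕ) (m b : Ideal (OO n t)), FM f m → FB f b → ∀ (c : ℤ) (q : ℕ), 0 < q →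
    q.Coprime (NI m) →
    Tendsto (fun y : ℝ => ThM (2 * f) m b (((c / q : ℚ) : ℂ) + y * Complex.I)) (𝓝[>] 0)
      (𝓝 (hM (2 * f) m b (c / q))) ∧
    io (etaM (2 * f) m b (c / q)) = hM (2 * f) m b (c / q) ∧
    (PrI b q → etaM (2 * f) m b (c / q) = (1 / q : Om) *
      ∑ x ∈ Finset.range q, ∑ y ∈ Finset.range q,
        zet q ^ (c * (NI m * NI b * Nm (⟨1 + 2 * f * x, 2 * f * y⟩ : OO n t))) *
          gO m b (toC (⟨1 + 2 * f * x, 2 * f * y⟩ : OO n t) / (2 * f * q : ℕ)))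

/-- Class functions, period, half period, homogeneity, complex conjugation. -/
def S_C6 : Prop :=
  ∀ (n t : ℕ) [Ine n t] (f : ℕ) (m b : Ideal (OO n t)), FM f m → FB f b →
    (∀ b' : Ideal (OO n t), FB f b' → Ray (2 * f) b b' →
      (∀ z : ℂ, ThM (2 * f) m b z = ThM (2 * f) m b' z) ∧
      ∀ r : ℚ, etaM (2 * f) m b r = etaM (2 * f) m b' r) ∧
    (∀ r : ℚ, etaM (2 * f) m b (r + 1) = etaM (2 * f) m b r ∧
      etaM (2 * f) m b (r + 1 / 2) = -etaM (2 * f) m b r) ∧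
    (∀ z : ℂ, (starRingEnd ℂ) (ThM (2 * f) m b z) =
      ThM (2 * f) (cjI m) (cjI b) (-(starRingEnd ℂ) z)) ∧
    ∀ c : Gal(Om/ℚ), (∀ x : Om, io (c x) = (starRingEnd ℂ) (io x)) → ∀ r : ℚ,
      r.den.Coprime (NI m) → c (etaM (2 * f) m b r) = etaM (2 * f) (cjI m) (cjI b) (-r)

/-- Holomorphy; the `q`-expansion; the finite sets `vN`; only odd exponents occur; the coefficients are divisible by
`2` at the primes above `2`. -/
def S_C7 : Prop :=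
  ∀ (n t : ℕ) [Ine n t] (f : ℕ) (m b : Ideal (OO n t)), FM f m → FB f b →
    DifferentiableOn ℂ (ThM (2 * f) m b) {z | 0 < z.im} ∧
    (∀ (j : ℕ) (v : ℂ), v ∈ vN (2 * f) (m * b) j ↔
      v - 1 / (2 * f : ℕ) ∈ Lam (m * b) ∧ ((2 * f : ℕ) : ℝ) ^ 2 * NI (m * b) * ‖v‖ ^ 2 = j) ∧
    (∀ j : ℕ, j % 2 = 0 → vN (2 * f) (m * b) j = ∅) ∧
    (∃ C : ℝ, ∀ j : ℕ, ‖cM (2 * f) m b j‖ ≤ C * (j + 1) ^ 2) ∧
    (∀ j : ℕ, io (ofC (cM (2 * f) m b j)) = cM (2 * f) m b j ∧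
      ∀ P : Ideal ZZ, Ab2 P → TP P 2 (ofC (cM (2 * f) m b j))) ∧
    ∀ z : ℂ, 0 < z.im → HasSum (fun j : ℕ => cM (2 * f) m b j / fr b * ex (j * z)) (ThM (2 * f) m b z)

/-- The Galois action on the values. -/
def S_C8 : Prop :=
  ∀ (n t : ℕ) [Ine n t] (f : ℕ) (m b : Ideal (OO n t)), FM f m → FB f b → ∀ r : ℚ,
    r.den.Coprime (NI m) → ∀ τ ∈ GK n t, ∀ a : Ideal (OO n t), Psi τ (2 * f) a →
      τ (etaM (2 * f) m b r) = etaM (2 * f) m (a * b) r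

/-- **The hidden symmetry.** The combination `etE` changes sign (up to a constant) under `(1 0; M 1)`. -/
def S_C9 : Prop :=
  ∀ (n t : ℕ) [Ine n t] (f M : ℕ) (m b : Ideal (OO n t)), FM f m → FB f b → IsLv f m {b} M →
    ∀ (P : Ideal ZZ) (k : ℕ), Ab2 P → (k = 1 ∨ k = 2) → ∀ r : ℚ, r.den.Coprime M →
      (M : ℚ) * r + 1 ≠ 0 ∧
      etE P f k m b (r / (M * r + 1)) = -etE P f k m b r + 2 * etE P f k m b 0

/-- Integrality at the primes above `2`: `(c3^k/2) E_b(r)` is integral and fixed by the inertia group. -/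
def S_C10 : Prop :=
  ∀ (n t : ℕ) [Ine n t] (f M : ℕ) (m b : Ideal (OO n t)), FM f m → FB f b → IsLv f m {b} M →
    ∀ (P : Ideal ZZ) (k : ℕ), Ab2 P → (k = 1 ∨ k = 2) → ∀ r : ℚ, r.den.Coprime M →
      VP P (c3 ^ k / 2 * etE P f k m b r) ∧
      (∀ σ ∈ P.inertia Gal(Om/ℚ), σ (c3 ^ k / 2 * etE P f k m b r) = c3 ^ k / 2 * etE P f k m b r)

/-- The numbers `κ(b)`: their valuation is `1/3`; isogenies of odd degree (part D). -/
def S_Kp : Prop :=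
  ∀ (n t : ℕ) [Ine n t] (P : Ideal ZZ), Ab2 P → ∀ b : Ideal (OO n t), b ≠ ⊥ → PrI b 30 →
    UP P (kp b / c3) ∧
    ∀ a : Ideal (OO n t), a ≠ ⊥ → PrI a 30 → MP P (kp (a * b) * rO b (a * b) ^ 2 / kp b - 1)

/-- `y_b(r)` and `(c3^k/2) E_b(r)`: they differ modulo `P` by the unit `(κ(b)/c3)^k`. -/
def S_C11 : Prop :=
  ∀ (n t : ℕ) [Ine n t] (P : Ideal ZZ), Ab2 P → ∀ b : Ideal (OO n t), b ≠ ⊥ → PrI b 30 →
    UP P (kp b / c3) ∧
    ∀ (f M k : ℕ) (m : Ideal (OO n t)), FM f m → FB f b → IsLv f m {b} M →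
      (k = 1 ∨ k = 2) → ∀ r : ℚ, r.den.Coprime M →
        VP P (yE f k m b r) ∧
        MP P (yE f k m b r - (kp b / c3) ^ k * (c3 ^ k / 2 * etE P f k m b r))

/-! ## The input of part V -/

/-- Levels exist. -/
def S_Lw : Prop :=
  ∀ (n t : ℕ) [Ine n t] (f : ℕ) (m : Ideal (OO n t)) (R : Finset (Ideal (OO n t))), FM f m → FR f R →
    ∃ M : ℕ, IsLw f m R M

/-- The functions `xs`: integrality, symmetry; modulo `P`: the transformation under `Γ_0(M)`. Here `d'` is an odd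
number congruent to `d` modulo `M`. -/
def S_V : Prop :=
  ∀ (n t : ℕ) [Ine n t] (f M k : ℕ) (m : Ideal (OO n t)) (R : Finset (Ideal (OO n t))), FM f m → FR f R →
    IsRC f R → IsLw f m R M → ∀ χ : Ideal (OO n t) → Om, IsChi (2 * f) χ →
    ∀ P : Ideal ZZ, Ab2 P → (k = 1 ∨ k = 2) → Ty P f χ (k - 1) →
    (∀ r : ℚ, r.den.Coprime M → VP P (xs P f k m R χ r)) ∧
    ∀ (a b c d d' : ℤ), G0 M a b c d → Odd d' → (M : ℤ) ∣ d' - d → ∀ r : ℚ, r.den.Coprime M →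
      (c : ℚ) * r + d ≠ 0 ∧ ((a * r + b) / (c * r + d) : ℚ).den.Coprime M ∧
      UP P (χ (sp (d' : OO n t))) ∧
      MP P (xs P f k m R χ ((a * r + b) / (c * r + d)) - χ (sp (d' : OO n t)) * xs P f k m R χ r -
        (xs P f k m R χ (b / d) - χ (sp (d' : OO n t)) * xs P f k m R χ 0))

/-! ## Part V -/

/-- **Theorem V for symbols which are constant on `ℤ[1/2]`.** -/
def S_Vq : Prop :=
  ∀ (M : ℕ) (F : Type) [Field F] (h : ℚ → F) (ch : ℤ → F), Odd M → 3 ≤ M →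
    (∀ (a b c d : ℤ), G0 M a b c d → ∀ r : ℚ, r.den.Coprime M →
      h ((a * r + b) / (c * r + d)) - ch d * h r = h (b / d) - ch d * h 0) →
    (∀ (c : ℤ) (j : ℕ), h (c / 2 ^ j) = h 0) →
    ∀ (a b c d : ℤ), G0 M a b c d → (M : ℤ) ∣ d - 1 → h (b / d) = h 0

end Pool.Agent.DN
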