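import Pool.Agent.Lib.DN.Base

/-!
# Theorem DN: `O` is a Dedekind domain (complete; no task)
-/

set_option autoImplicit false

open scoped Pointwise nonZeroDivisors

noncomputable section

namespace Pool.Agent.DN

open Pool.Agent.MuZ Pool.Agent.FW NumberField IsDedekindDomain
open Pool.Agent.DI (io ofC io_inj exists_io io_ofC ofC_io VP MP UP TP ex)

variable {k t : ℕ}

/-- `n² ∣ D a²`, `D` squarefree: `n ∣ a`. -/
theorem dvd_of_sqf {D : ℕ} (hD : Squarefree D) {n a : ℕ} (h : n ^ 2 ∣ D * a ^ 2) : n ∣ a := by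
  rcases Nat.eq_zero_or_pos a with rfl | ha
  · exact dvd_zero n
  have hg : 0 < n.gcd a := Nat.gcd_pos_of_pos_right _ ha
  obtain ⟨n', a', hc, hn, ha'⟩ := Nat.exists_coprime n a
  have h1 : n' ^ 2 ∣ D * a' ^ 2 := by
    have h2 : (n.gcd a) ^ 2 * n' ^ 2 ∣ (n.gcd a) ^ 2 * (D * a' ^ 2) := by
      have e1 : (n.gcd a) ^ 2 * n' ^ 2 = n ^ 2 := by
        conv_rhs => rw [hn]
        ring
      have e2 : (n.gcd a) ^ 2 * (D * a' ^ 2) = D * a ^ 2 := by
        conv_rhs => rw [ha']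
        ring
      rw [e1, e2]
      exact h
    exact Nat.dvd_of_mul_dvd_mul_left (by positivity) h2
  have h3 : n' ^ 2 ∣ D := (Nat.Coprime.pow 2 2 hc).dvd_of_dvd_mul_right h1
  have h4 : IsUnit n' := hD n' (by rwa [← sq])
  rw [Nat.isUnit_iff] at h4
  rw [h4, one_mul] at hn
  rw [hn]
  exact Nat.gcd_dvd_right n a

/-- A rational number is an integer if it is integral. -/
theorem int_of_integral {r : ℚ} (hr : IsIntegral ℤ ((r : ℚ) : ℂ)) : ∃ m : ℤ, (m : ℚ) = r := by
  have h3 : IsIntegral ℤ r := by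
    have h4 : IsIntegral ℤ (algebraMap ℚ ℂ r) := by simpa using hr
    exact (isIntegral_algebraMap_iff (algebraMap ℚ ℂ).injective).1 h4
  obtain ⟨m, hm⟩ := IsIntegrallyClosed.isIntegral_iff.1 h3
  exact ⟨m, by simpa using hm⟩

/-- Trace and norm of an integral element. -/
theorem tr_nm [SqN k t] (v : OO k t) (n : ℕ) (hn : 0 < n) (hi : IsIntegral ℤ (toC v / n : ℂ)) :
    ∃ s m : ℤ, 2 * v.re + t * v.im = n * s ∧ Nm v = n ^ 2 * m := by
  have hn' : (n : ℂ) ≠ 0 := by exact_mod_cast hn.ne'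
  set z : ℂ := toC v / n with hz
  have hc : IsIntegral ℤ ((starRingEnd ℂ) z) := hi.map (RingHom.toIntAlgHom (starRingEnd ℂ))
  have hzc : (starRingEnd ℂ) z = toC (cjO v) / n := by
    rw [hz, map_div₀, conj_toC, map_natCast]
  -- the trace
  have h1 : IsIntegral ℤ (((2 * v.re + t * v.im : ℚ) / n : ℚ) : ℂ) := by
    have e : (((2 * v.re + t * v.im : ℚ) / n : ℚ) : ℂ) = z + (starRingEnd ℂ) z := by
      rw [hzc, hz, ← add_div, ← toC_add]
      have : v + cjO v = ((2 * v.re + t * v.im : ℤ) : OO k t) := by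
        apply ext'
        · rw [QuadraticAlgebra.re_add, re_int]
          simp only [cjO]
          ring
        · rw [QuadraticAlgebra.im_add, im_int]
          simp only [cjO]
          ring
      rw [this, toC_int]
      push_cast
      ring
    rw [e]
    exact hi.add hc
  -- the norm
  have h2 : IsIntegral ℤ (((Nm v : ℚ) / n ^ 2 : ℚ) : ℂ) := by
    have e : (((Nm v : ℚ) / n ^ 2 : ℚ) : ℂ) = z * (starRingEnd ℂ) z := by
      rw [hzc, hz]
      have := toC_Nm v
      push_cast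
      rw [this]
      field_simp
    rw [e]
    exact hi.mul hc
  obtain ⟨s, hs⟩ := int_of_integral h1
  obtain ⟨m, hm⟩ := int_of_integral h2
  have hnq : (n : ℚ) ≠ 0 := by exact_mod_cast hn.ne'
  refine ⟨s, m, ?_, ?_⟩
  · have : (2 * v.re + t * v.im : ℚ) = n * s := by
      rw [hs]
      field_simp
    exact_mod_cast this
  · have : (Nm v : ℚ) = n ^ 2 * m := by
      rw [hm]
      field_simp
    exact_mod_cast this

/-- An integral element of `K` is in `O`. -/
theorem mem_O [h : SqN k t] (v : OO k t) (n : ℕ) (hn : 0 < n) (hi : IsIntegral ℤ (toC v / n : ℂ)) :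
    ∃ u : OO k t, v = n * u := by
  obtain ⟨s, m, e1, e2⟩ := tr_nm v n hn hi
  have e3 := four_Nm v
  rw [e1, e2] at e3
  have hnz : (n : ℤ) ≠ 0 := by exact_mod_cast hn.ne'
  rcases h.out with ⟨ht, hk, hsq⟩ | ⟨ht, hk, hsq, hm4⟩
  · subst ht
    have hD : (((4 * k - 1 : ℕ)) : ℤ) = 4 * k - 1 := by omega
    have e4 : (n : ℤ) ^ 2 * (4 * m - s ^ 2) = ((4 * k - 1 : ℕ) : ℤ) * v.im ^ 2 := by
      rw [hD]
      push_cast at e3
      linear_combination e3
    have h5 : n ∣ v.im.natAbs := by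
      apply dvd_of_sqf hsq
      have h6 : (n : ℤ) ^ 2 ∣ ((4 * k - 1 : ℕ) : ℤ) * v.im ^ 2 := ⟨_, e4.symm⟩
      have h7 := Int.natAbs_dvd_natAbs.2 h6
      rwa [Int.natAbs_mul, Int.natAbs_pow, Int.natAbs_pow, Int.natAbs_natCast, Int.natAbs_natCast] at h7
    obtain ⟨y, hy⟩ : (n : ℤ) ∣ v.im := Int.natCast_dvd.2 h5
    have e5 : 4 * m - s ^ 2 = ((4 * k - 1 : ℕ) : ℤ) * y ^ 2 := by
      have : (n : ℤ) ^ 2 * (4 * m - s ^ 2) = (n : ℤ) ^ 2 * (((4 * k - 1 : ℕ) : ℤ) * y ^ 2) := by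
        rw [e4, hy]
        ring
      exact mul_left_cancel₀ (pow_ne_zero 2 hnz) this
    have e6 : (2 : ℤ) ∣ s - y := by
      have h8 : (2 : ℤ) ∣ s ^ 2 - y ^ 2 := by
        rw [hD] at e5
        exact ⟨2 * m - 2 * k * y ^ 2, by linear_combination -e5⟩
      have h9 : s ^ 2 - y ^ 2 = (s - y) * (s - y) + 2 * ((s - y) * y) := by ring
      rw [h9] at h8
      have h10 : (2 : ℤ) ∣ (s - y) * (s - y) := (Int.dvd_iff_dvd_of_dvd_add h8).2 ⟨_, rfl⟩
      rcases Int.prime_two.dvd_or_dvd h10 with h | h <;> exact h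
    obtain ⟨r, hr⟩ := e6
    refine ⟨⟨r, y⟩, ext' ?_ ?_⟩
    · rw [re_mul, re_nat, im_nat]
      rw [hy] at e1
      push_cast at e1
      have : 2 * v.re = 2 * (n * r) := by
        linear_combination e1 + (n : ℤ) * hr
      linarith
    · rw [im_mul, re_nat, im_nat, hy]
      ring
  · subst ht
    have e4 : (n : ℤ) ^ 2 * (4 * m - s ^ 2) = (k : ℤ) * (2 * v.im) ^ 2 := by
      push_cast at e3
      linear_combination e3
    have h5 : n ∣ (2 * v.im).natAbs := by
      apply dvd_of_sqf hsq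
      have h6 : (n : ℤ) ^ 2 ∣ (k : ℤ) * (2 * v.im) ^ 2 := ⟨_, e4.symm⟩
      have h7 := Int.natAbs_dvd_natAbs.2 h6
      rwa [Int.natAbs_mul, Int.natAbs_pow, Int.natAbs_pow, Int.natAbs_natCast, Int.natAbs_natCast] at h7
    obtain ⟨y, hy⟩ : (n : ℤ) ∣ 2 * v.im := Int.natCast_dvd.2 h5
    have e5 : 4 * m - s ^ 2 = (k : ℤ) * y ^ 2 := by
      have : (n : ℤ) ^ 2 * (4 * m - s ^ 2) = (n : ℤ) ^ 2 * ((k : ℤ) * y ^ 2) := by
        rw [e4, hy]
        ring
      exact mul_left_cancel₀ (pow_ne_zero 2 hnz) this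
    have hm4' : (k : ℤ) % 4 ≠ 3 := by omega
    have hm0 : (k : ℤ) % 4 ≠ 0 := by
      intro h0
      have h1 : 2 * 2 ∣ k := by
        have : ((4 : ℕ) : ℤ) ∣ (k : ℤ) := Int.dvd_of_emod_eq_zero h0
        exact_mod_cast this
      have h2 := hsq 2 h1
      rw [Nat.isUnit_iff] at h2
      omega
    -- `y` is even
    have hye : (2 : ℤ) ∣ y := by
      by_contra hy2
      have hy3 : y % 2 = 1 := by omega
      have hss : s ^ 2 % 4 = 0 ∨ s ^ 2 % 4 = 1 := by
        rcases Int.even_or_odd' s with ⟨a, ha | ha⟩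
        · left
          rw [ha, show (2 * a) ^ 2 = 4 * a ^ 2 by ring]
          omega
        · right
          rw [ha, show (2 * a + 1) ^ 2 = 4 * (a ^ 2 + a) + 1 by ring]
          omega
      obtain ⟨c, hc⟩ : ∃ c, y ^ 2 = 4 * c + 1 := by
        obtain ⟨a, ha⟩ : ∃ a, y = 2 * a + 1 := ⟨y / 2, by omega⟩
        exact ⟨a ^ 2 + a, by rw [ha]; ring⟩
      have h8 : 4 * m - s ^ 2 = 4 * ((k : ℤ) * c) + (k : ℤ) := by
        rw [e5, hc]
        ring
      omega
    obtain ⟨c, hc⟩ := hye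
    have hyi : v.im = n * c := by
      rw [hc] at hy
      linarith
    have hse : (2 : ℤ) ∣ s := by
      have h8 : (2 : ℤ) ∣ s * s := ⟨2 * m - 2 * ((k : ℤ) * c ^ 2), by
        rw [hc] at e5
        linear_combination -e5⟩
      rcases Int.prime_two.dvd_or_dvd h8 with h | h <;> exact h
    obtain ⟨r, hr⟩ := hse
    refine ⟨⟨r, c⟩, ext' ?_ ?_⟩
    · rw [re_mul, re_nat, im_nat]
      rw [hyi, hr] at e1
      push_cast at e1
      have : 2 * v.re = 2 * (n * r) := by
        linear_combination e1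
      linarith
    · rw [im_mul, re_nat, im_nat, hyi]
      ring

instance [SqN k t] : IsIntegrallyClosed (OO k t) := by
  rw [isIntegrallyClosed_iff (FractionRing (OO k t))]
  intro x hx
  -- the embedding of the fraction field
  let φ : FractionRing (OO k t) →+* ℂ := IsFractionRing.lift (A := OO k t) (g := toCh k t) toC_inj
  have hφ : ∀ v : OO k t, φ (algebraMap (OO k t) (FractionRing (OO k t)) v) = toC v := fun v =>
    IsFractionRing.lift_algebraMap (A := OO k t) (g := toCh k t) toC_inj v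
  let _ : Algebra (OO k t) ℂ := (toCh k t).toAlgebra
  have hx1 : IsIntegral (OO k t) (φ x) := by
    obtain ⟨p, hp, hpx⟩ := hx
    refine ⟨p, hp, ?_⟩
    have h1 := congrArg φ hpx
    rw [map_zero, Polynomial.hom_eval₂] at h1
    have h2 : φ.comp (algebraMap (OO k t) (FractionRing (OO k t))) = algebraMap (OO k t) ℂ :=
      RingHom.ext fun v => hφ v
    rwa [h2] at h1
  have hφx : IsIntegral ℤ (φ x) := isIntegral_trans (R := ℤ) (φ x) hx1
  obtain ⟨v, d, hd, hvd⟩ := IsFractionRing.div_surjective (A := OO k t) x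
  have hd0 : d ≠ 0 := nonZeroDivisors.ne_zero hd
  have hN := Nm_pos hd0
  have hN1 : ((Nm d).toNat : ℤ) = Nm d := Int.toNat_of_nonneg (Nm_nonneg d)
  have hcd : toC (cjO d) ≠ 0 := by
    intro h0
    have h1 : cjO d = 0 := toC_eq_zero.1 h0
    apply hd0
    rw [← cjO_cjO d, h1, cjO_zero]
  have e : φ x = toC (v * cjO d) / ((Nm d).toNat : ℕ) := by
    rw [← hvd, map_div₀, hφ, hφ, toC_mul]
    have h2 : (((Nm d).toNat : ℕ) : ℂ) = toC d * toC (cjO d) := by
      rw [← toC_Nm, ← hN1]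
      rw [Int.cast_natCast, Int.toNat_natCast]
    rw [h2]
    have h3 : toC d ≠ 0 := toC_ne hd0
    field_simp
  rw [e] at hφx
  obtain ⟨u, hu⟩ := mem_O _ _ (by omega) hφx
  refine ⟨u, φ.injective ?_⟩
  rw [hφ, e, hu, toC_mul, toC_nat]
  have h4 : (((Nm d).toNat : ℕ) : ℂ) ≠ 0 := by
    have : (Nm d).toNat ≠ 0 := by omega
    exact_mod_cast this
  field_simp

instance [SqN k t] : IsDedekindDomain (OO k t) where

instance [SqN k t] : Ring.HasFiniteQuotients (OO k t) := inferInstance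

end Pool.Agent.DN
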