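import Pool.Agent.Lib.DN.Iface

/-!
# Theorem DN: the outputs of Part G (elliptic units), used by Part H and Part I

Ported from Section 2 of `DK/IfaceG.lean` (helper21) by helper55. The ring parameters are called `k t` (`k` is the `n` of
`DN/Defs.lean`). `f` is odd and divisible by `15`; the classes in `Cl(2 f)`, `H2 f`, `HP f`, `Lf`, `Mf` are modulo `2 f`;
those in `HPN f N`, `Mn k t f N` are modulo `f 2 ^ N`, `1 ≤ N`. Nothing is proved here.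
-/

set_option autoImplicit false

open scoped Pointwise Topology nonZeroDivisors
open Filter

noncomputable section

namespace Pool.Agent.DN

open Pool.Agent.MuZ Pool.Agent.FW NumberField IsDedekindDomain
open Pool.Agent.DI (io ofC io_inj exists_io io_ofC ofC_io VP MP UP TP ex sqr sqr_sq kap)

/-- A system of representatives `c` of `Cl(2 f) / H_f`, `N c = ± 1` modulo `2 ^ N` (`H_f` is the group of
the classes of the principal ideals `(v)`, `v` in `H_f`). -/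
structure IsDS {k t : ℕ} (f N : ℕ) (D : Finset (Ideal (OO k t))) : Prop where
  mem : ∀ c ∈ D, c ≠ ⊥ ∧ PrI c (2 * f) ∧
    ((2 : ℤ) ^ N ∣ (NI c : ℤ) - 1 ∨ (2 : ℤ) ^ N ∣ (NI c : ℤ) + 1)
  ex : ∀ b : Ideal (OO k t), b ≠ ⊥ → PrI b (2 * f) → ∃ c ∈ D, ∃ a : Ideal (OO k t), HP f a ∧
    Ray (2 * f) b (a * c)
  uni : ∀ c ∈ D, ∀ c' ∈ D, (∃ a : Ideal (OO k t), HP f a ∧ Ray (2 * f) c' (a * c)) → c = c'

/-- Representatives exist. -/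
def S_GR : Prop :=
  ∀ (k t : ℕ) [Ine k t] (f N : ℕ), Odd f → 15 ∣ f → 1 ≤ N →
    (∃ T : Finset (OO k t), IsRep f N T) ∧ ∃ D : Finset (Ideal (OO k t)), IsDS f N D

/-- The groups `HP`, `HPN`; the fields `L'`, `L'_n`, their Galois groups. -/
def S_GM : Prop :=
  ∀ (k t : ℕ) [Ine k t] (f : ℕ), Odd f → 15 ∣ f →
    (HP f (⊤ : Ideal (OO k t)) ∧ (∀ a : Ideal (OO k t), HP f a → a ≠ ⊥ ∧ PrI a (2 * f)) ∧
      (∀ a a' : Ideal (OO k t), HP f a → Ray (2 * f) a a' → HP f a') ∧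
      ∀ a a' : Ideal (OO k t), HP f a → HP f a' → HP f (a * a')) ∧
    (∀ N : ℕ, 1 ≤ N → HPN f N (⊤ : Ideal (OO k t)) ∧
      (∀ a : Ideal (OO k t), HPN f N a → a ≠ ⊥ ∧ PrI a (f * 2 ^ N)) ∧
      (∀ a a' : Ideal (OO k t), HPN f N a → Ray (f * 2 ^ N) a a' → HPN f N a') ∧
      (∀ a a' : Ideal (OO k t), HPN f N a → HPN f N a' → HPN f N (a * a')) ∧
      ∀ a : Ideal (OO k t), a ≠ ⊥ → PrI a (f * 2 ^ N) → (HPN f N a ↔ HP f a ∧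
        ((2 : ℤ) ^ N ∣ (NI a : ℤ) - 1 ∨ (2 : ℤ) ^ N ∣ (NI a : ℤ) + 1))) ∧
    FiniteDimensional ℚ (Mf k t f) ∧ KQ k t ≤ Mf k t f ∧
    (∀ N : ℕ, 1 ≤ N → FiniteDimensional ℚ (Mn k t f N) ∧ Mf k t f ≤ Mn k t f N ∧
      Mn k t f N ≤ Mn k t f (N + 1)) ∧
    (∀ τ ∈ GK k t, ∀ a : Ideal (OO k t), Psi τ (2 * f) a → ((∀ x ∈ Mf k t f, τ x = x) ↔ HP f a)) ∧
    (∀ (N : ℕ), 1 ≤ N → ∀ τ ∈ GK k t, ∀ a : Ideal (OO k t), Psi τ (f * 2 ^ N) a →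
      ((∀ x ∈ Mn k t f N, τ x = x) ↔ HPN f N a)) ∧
    ∀ (N : ℕ) (ζ : Om), 1 ≤ N → IsPrimitiveRoot ζ (2 ^ N) → ∀ τ : Gal(Om/ℚ),
      (∀ x ∈ Mn k t f N, τ x = x) ↔ (∀ x ∈ Mf k t f, τ x = x) ∧ (τ ζ = ζ ∨ τ ζ = ζ⁻¹)

/-- **G3.** The elliptic units. -/
def S_G3 : Prop :=
  ∀ (k t : ℕ) [Ine k t] (f : ℕ) (m : Ideal (OO k t)) (N : ℕ) (T : Finset (OO k t)), Odd f → 15 ∣ f →
    m ≠ ⊥ → PrI m 2 → PrI m f → 2 ≤ N → IsRep f N T → ∀ b : Ideal (OO k t), b ≠ ⊥ → PrI b (2 * f) →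
      uN f N m T b ∈ Mn k t f N ∧ uN f N m T b ≠ 0 ∧
      (∀ Q : Ideal ZZ, Npr Q → UP Q (uN f N m T b)) ∧
      (∀ b' : Ideal (OO k t), Ray (f * 2 ^ N) b b' → uN f N m T b' = uN f N m T b) ∧
      (∀ a : Ideal (OO k t), HPN f N a → uN f N m T (a * b) = uN f N m T b) ∧
      (∀ τ ∈ GK k t, ∀ a : Ideal (OO k t), Psi τ (f * 2 ^ N) a →
        τ (uN f N m T b) = uN f N m T (a * b)) ∧
      (∀ T' : Finset (OO k t), IsRep f N T' → uN f N m T' b = uN f N m T b) ∧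
      ∀ T' : Finset (OO k t), IsRep f (N + 1) T' → ∀ s ∈ GK k t, ∀ a : Ideal (OO k t),
        Psi s (f * 2 ^ (N + 1)) a → HPN f N a → ¬ HPN f (N + 1) a →
          uN f (N + 1) m T' b * s (uN f (N + 1) m T' b) = uN f N m T b

/-- **Output of Part G.** For all large `N`. -/
def S_G : Prop :=
  ∀ (k t : ℕ) [Ine k t] (f : ℕ) (m : Ideal (OO k t)) (χ : Ideal (OO k t) → Om) (P : Ideal ZZ),
    Odd f → 15 ∣ f → m ≠ ⊥ → m ≠ ⊤ → PrI m 2 → PrI m f → IsChi (2 * f) χ → Ab2 P →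
    ∃ N0 : ℕ, 3 ≤ N0 ∧ ∀ N : ℕ, N0 ≤ N → ∀ T : Finset (OO k t), IsRep f N T →
      ∀ D : Finset (Ideal (OO k t)), IsDS f N D →
        ∃ d : Gal(Om/ℚ), (∀ x : ZZ, x ∈ P → d • x ∈ P) ∧ (∀ n : ℕ, ∀ x ∈ Mn k t f n, d x = x) ∧
          (∀ i : Om, i ^ 2 = -1 → d i = i) ∧
          ¬ MP P (∑ c ∈ D, χ c * ((kap (uN f N m T c) d).val : Om))

end Pool.Agent.DN
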