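import Pool.Agent.Lib.DN.IfaceL
import Pool.Agent.Lib.DN.F4.FH

/-!
# Theorem DN: the interface of part F (non-constancy), author helper12

`S_F` is in `IfaceL.lean`; the statements here are the division of part F: `S_Kf`, `S_F1`, `S_Lead`, `S_F2`, `S_Psi`,
`S_FH`. Nothing is proved here. A false or awkward statement: mail helper12 at once.

IDEA. `A = N0 ∑ σ_b(β) ThM (2f) m b` (sum over the classes modulo `2 f`), `β` in the ray class field modulo `2 f`,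
`2 β` of valuation `k/3` at the primes above `2` (`β = κ^k β₀/2`, `β₀` in the ray class field modulo `f`). If `xs` is
constant modulo `P` then for a suitable `β` the periods `α(g)` are in `O` and `α(g) + α(g')` is in `2 O`. Let
`C(z) = A(z) + conj A(- conj z)`: its periods are `α + conj α'`, in `ℤ + 2 O`; the coefficients of `fr C` are divisible by
`c3^k`, the leading one exactly (for `β` or `w β`). `G(v)² = X(2v) - X(1/2)`, `G` is invariant under `v → v + 1/2`: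
`Ψ = G(C/2)` is a modular function, a quotient of bounded series; contradiction (2-descent, `DN.F4.fh`).
-/

set_option autoImplicit false

open scoped Pointwise Topology MatrixGroups
open Filter

noncomputable section

namespace Pool.Agent.DN

open Pool.Agent.MuZ Pool.Agent.FW NumberField
open Pool.Agent.DI (io ofC io_inj exists_io io_ofC ofC_io VP MP UP TP ex)

/-! ## The ray class fields modulo `f` and modulo `2 f` -/

/-- The ray class field modulo `N` (`N = f` or `N = 2 f`). -/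
def Kf (n t N : ℕ) : IntermediateField ℚ Om :=
  FixI N (fun a : Ideal (OO n t) => Ray N a ⊤)

/-- `σ b` acts as the ideal `b`. -/
structure IsSig (n t f : ℕ) (σ : Ideal (OO n t) → Gal(Om/ℚ)) : Prop where
  mem : ∀ b : Ideal (OO n t), FB f b → σ b ∈ GK n t
  psi : ∀ b : Ideal (OO n t), FB f b → Psi (σ b) (2 * f) b

/-- `c` is the complex conjugation of `Om`. -/
def IsCj (c : Gal(Om/ℚ)) : Prop := ∀ x : Om, io (c x) = (starRingEnd ℂ) (io x)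

/-- Galois theory of `Kf n t f`, `Kf n t (2 f)`; the first one is unramified above `2`. -/
def S_Kf : Prop :=
  ∀ (n t : ℕ) [Ine n t] (f : ℕ), Odd f → 15 ∣ f →
    (∀ N : ℕ, (N = f ∨ N = 2 * f) → FiniteDimensional ℚ (Kf n t N) ∧ wO n t ∈ Kf n t N ∧
      (∀ τ ∈ GK n t, ∀ x ∈ Kf n t N, τ x ∈ Kf n t N) ∧
      ∀ τ ∈ GK n t, ∀ τ' ∈ GK n t, ∀ a a' : Ideal (OO n t), Psi τ N a → Psi τ' N a' →
        ((∀ x ∈ Kf n t N, τ x = τ' x) ↔ Ray N a a')) ∧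
    Kf n t f ≤ Kf n t (2 * f) ∧ (∃ σ, IsSig n t f σ) ∧
    (∀ x : Om, (∀ τ ∈ GK n t, τ x = x) → x ∈ KQ n t) ∧
    (∀ P : Ideal ZZ, Ab2 P → ∀ τ ∈ P.inertia Gal(Om/ℚ), ∀ x ∈ Kf n t f, τ x = x) ∧
    (∀ P : Ideal ZZ, Ab2 P → ∀ τ ∈ GK n t, ∀ τ' ∈ GK n t,
      (∀ x ∈ Kf n t f, IsIntegral ℤ x → MP P (τ x - τ' x)) → ∀ x ∈ Kf n t f, τ x = τ' x) ∧
    (∀ P : Ideal ZZ, Ab2 P → ∀ x ∈ Kf n t f, MP P x → VP P (x / 2)) ∧
    (∃ c : Gal(Om/ℚ), IsCj c) ∧ ∀ c : Gal(Om/ℚ), IsCj c → c * c = 1 ∧ c (wO n t) = t - wO n t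

/-! ## The functions `A`, `C` -/

/-- The function `A(z) = N0 ∑ σ_b(β) ThM (2f) m b z`, the sum over `R`, the classes modulo `2 f`. -/
def AF {n t : ℕ} (f : ℕ) (m : Ideal (OO n t)) (R : Finset (Ideal (OO n t)))
    (σ : Ideal (OO n t) → Gal(Om/ℚ)) (N0 : ℕ) (β : Om) (z : ℂ) : ℂ :=
  N0 * ∑ b ∈ R, io (σ b β) * ThM (2 * f) m b z

/-- The coefficients of the `q`-expansion of `fr(1) A(z)`, in `Om`. -/
def aF {n t : ℕ} (f : ℕ) (m : Ideal (OO n t)) (R : Finset (Ideal (OO n t)))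
    (σ : Ideal (OO n t) → Gal(Om/ℚ)) (N0 : ℕ) (β : Om) (j : ℕ) : Om :=
  N0 * ∑ b ∈ R, σ b β * rO b ⊤ * ofC (cM (2 * f) m b j)

/-- The function `C(z) = A(z) + conj A(- conj z)`. -/
def CF {n t : ℕ} (f : ℕ) (m : Ideal (OO n t)) (R : Finset (Ideal (OO n t)))
    (σ : Ideal (OO n t) → Gal(Om/ℚ)) (N0 : ℕ) (β : Om) (z : ℂ) : ℂ :=
  AF f m R σ N0 β z + (starRingEnd ℂ) (AF f m R σ N0 β (-(starRingEnd ℂ) z))

/-- The coefficients of `fr(1) C(z)`. -/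
def cF {n t : ℕ} (f : ℕ) (m : Ideal (OO n t)) (R : Finset (Ideal (OO n t)))
    (σ : Ideal (OO n t) → Gal(Om/ℚ)) (c : Gal(Om/ℚ)) (N0 : ℕ) (β : Om) (j : ℕ) : Om :=
  aF f m R σ N0 β j + c (aF f m R σ N0 β j)

/-- The power series `fr(1) C`. -/
def uF {n t : ℕ} (f : ℕ) (m : Ideal (OO n t)) (R : Finset (Ideal (OO n t)))
    (σ : Ideal (OO n t) → Gal(Om/ℚ)) (c : Gal(Om/ℚ)) (N0 : ℕ) (β : Om) : PowerSeries Om :=
  PowerSeries.mk (cF f m R σ c N0 β)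

/-- The periods of `A` are in `O`, with `α(g) + α(g')` in `2 O`, `g' = (a -b; -c d)`. -/
def IsPer {n t : ℕ} (f M : ℕ) (m : Ideal (OO n t)) (R : Finset (Ideal (OO n t)))
    (σ : Ideal (OO n t) → Gal(Om/ℚ)) (N0 : ℕ) (β : Om) : Prop :=
  ∀ a b c d : ℤ, G0 (4 * M) a b c d → (4 * M : ℤ) ∣ d - 1 → ∃ α α' : OO n t,
    (2 : OO n t) ∣ α + α' ∧ ∀ z : ℂ, 0 < z.im →
      AF f m R σ N0 β ((a * z + b) / (c * z + d)) = AF f m R σ N0 β z + toC α ∧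
      AF f m R σ N0 β ((a * z - b) / (-c * z + d)) = AF f m R σ N0 β z + toC α'

/-- **F1.** If Proposition F is false: there is `β` such that `A = AF f m R2 σ N0 β` has periods `α(g)` in `O`, with
`α(g) + α(g')` in `2 O`, and `2 β` has the valuation `k/3` (at all primes above `2`: at least `k/3`). -/
def S_F1 : Prop :=
  ∀ (n t : ℕ) [Ine n t] (f M k : ℕ) (m : Ideal (OO n t)) (R R2 : Finset (Ideal (OO n t))), FM f m →
    FR f R → IsRC f R → IsLv f m R M → FR f R2 → IsRC (2 * f) R2 → IsLv f m R2 M →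
    ∀ χ : Ideal (OO n t) → Om, IsChi (2 * f) χ → ∀ P : Ideal ZZ, Ab2 P → (k = 1 ∨ k = 2) →
    Ty P f χ (k - 1) → ∀ σ : Ideal (OO n t) → Gal(Om/ℚ), IsSig n t f σ →
    (∀ a b c d : ℤ, G0 M a b c d → (M : ℤ) ∣ d - 1 →
      MP P (xs P f k m R χ (b / d) - xs P f k m R χ 0)) →
    ∃ (N0 : ℕ) (β : Om), Odd N0 ∧ β ∈ Kf n t (2 * f) ∧
      (∀ Q : Ideal ZZ, Ab2 Q → ∀ τ ∈ GK n t, VP Q (2 * τ β / c3 ^ k)) ∧
      (∀ b1 ∈ R2, Ray (2 * f) (m * b1) ⊤ → UP P (2 * σ b1 β / c3 ^ k)) ∧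
      IsPer f M m R2 σ N0 β

/-- The coefficients of `A`: `a_0 = 0`, divisibility, `a_1`. -/
def S_Lead : Prop :=
  ∀ (n t : ℕ) [Ine n t] (f : ℕ) (m : Ideal (OO n t)) (R : Finset (Ideal (OO n t))), FM f m → FR f R →
    IsRC (2 * f) R → ∀ σ : Ideal (OO n t) → Gal(Om/ℚ), IsSig n t f σ → ∀ (N0 : ℕ) (β : Om),
      β ∈ Kf n t (2 * f) →
      (∀ j : ℕ, aF f m R σ N0 β j ∈ Kf n t (2 * f)) ∧ aF f m R σ N0 β 0 = 0 ∧
      (∀ z : ℂ, 0 < z.im → HasSum (fun j : ℕ => io (aF f m R σ N0 β j) * ex z ^ j)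
        (fr (⊤ : Ideal (OO n t)) * AF f m R σ N0 β z)) ∧
      (∀ Q : Ideal ZZ, Ab2 Q → ∀ γ : Om, γ ≠ 0 → (∀ b ∈ R, VP Q (2 * σ b β / γ)) →
        ∀ j : ℕ, VP Q (aF f m R σ N0 β j / γ)) ∧
      (m ≠ ⊤ → Odd N0 → ∃ b1 ∈ R, Ray (2 * f) (m * b1) ⊤ ∧ ∃ u : Om,
        aF f m R σ N0 β 1 = u * (2 * σ b1 β) ∧ ∀ Q : Ideal ZZ, Ab2 Q → UP Q u)

/-- **F2** (from `S_Kf`, `S_F1`, `S_Lead`). For `β` or `w β` the leading coefficient of `fr C` has the valuation `k/3`. -/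
def S_F2 : Prop :=
  ∀ (n t : ℕ) [Ine n t] (f M k : ℕ) (m : Ideal (OO n t)) (R R2 : Finset (Ideal (OO n t))), FM f m →
    m ≠ ⊤ → FR f R → IsRC f R → IsLv f m R M → FR f R2 → IsRC (2 * f) R2 → IsLv f m R2 M →
    ∀ χ : Ideal (OO n t) → Om, IsChi (2 * f) χ → ∀ P : Ideal ZZ, Ab2 P → (k = 1 ∨ k = 2) →
    Ty P f χ (k - 1) → ∀ σ : Ideal (OO n t) → Gal(Om/ℚ), IsSig n t f σ →
    ∀ c : Gal(Om/ℚ), IsCj c →
    (∀ a b c' d : ℤ, G0 M a b c' d → (M : ℤ) ∣ d - 1 →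
      MP P (xs P f k m R χ (b / d) - xs P f k m R χ 0)) →
    ∃ (N0 : ℕ) (β : Om), β ∈ Kf n t (2 * f) ∧ (∀ j : ℕ, VP P (cF f m R2 σ c N0 β j / c3 ^ k)) ∧
      UP P (cF f m R2 σ c N0 β 1 / c3 ^ k) ∧ IsPer f M m R2 σ N0 β

/-- **F3.** The function `Ψ = G(C/2)`, `G(v)² = X(2 v) - X(1/2)`, and its expansion. -/
def S_Psi : Prop :=
  ∀ (n t : ℕ) [Ine n t] (f M : ℕ) (m : Ideal (OO n t)) (R : Finset (Ideal (OO n t))), FM f m →
    FR f R → IsRC (2 * f) R → IsLv f m R M →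
    ∀ σ : Ideal (OO n t) → Gal(Om/ℚ), IsSig n t f σ → ∀ c : Gal(Om/ℚ), IsCj c →
    ∀ (N0 : ℕ) (β : Om), β ∈ Kf n t (2 * f) → cF f m R σ c N0 β 1 ≠ 0 →
    ∃ Ψ : ℂ → ℂ, (∀ z : ℂ, 0 < z.im → MeromorphicAt Ψ z) ∧
      (∀ z z' : ℂ, 0 < z.im → 0 < z'.im → ∀ α α' : OO n t, (2 : OO n t) ∣ α + α' →
        AF f m R σ N0 β z' = AF f m R σ N0 β z + toC α →
        AF f m R σ N0 β (-(starRingEnd ℂ) z') = AF f m R σ N0 β (-(starRingEnd ℂ) z) + toC α' →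
        Ψ z' = Ψ z) ∧
      (∀ γ : SL(2, ℤ), ∃ (F : ℂ → ℂ) (Y : ℝ), MeromorphicAt F 0 ∧
        ∀ z : UpperHalfPlane, Y < z.im → Ψ ((γ • z : UpperHalfPlane) : ℂ) =
          F (Complex.exp (2 * Real.pi * Complex.I * (z : ℂ) / ((4 * M : ℕ) : ℂ)))) ∧
      ∃ (T W ψ : PowerSeries Om) (Y : ℝ) (j : ℕ) (L : IntermediateField ℚ Om),
        FiniteDimensional ℚ L ∧ (∀ i, PowerSeries.coeff i ψ ∈ L) ∧
        _root_.DN.F4.TWr (a1O (⊤ : Ideal (OO n t))) (a3O (⊤ : Ideal (OO n t)))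
          (uF f m R σ c N0 β) T W ∧
        ψ ^ 2 * W = PowerSeries.X ^ 2 *
          (T - PowerSeries.C (xO (⊤ : Ideal (OO n t)) (1 / 2)) * W) ∧
        ∀ z : ℂ, Y < z.im → HasSum (fun i : ℕ => io (PowerSeries.coeff i ψ) * ex z ^ i)
          (ex z ^ j * Ψ z)

/-- **F4.** The contradiction (from `DN.F4.fh`). -/
def S_FH : Prop :=
  ∀ (n t : ℕ) [Ine n t] (f k : ℕ) (m : Ideal (OO n t)) (R : Finset (Ideal (OO n t))), FM f m →
    FR f R → IsRC (2 * f) R → ∀ P : Ideal ZZ, Ab2 P → (k = 1 ∨ k = 2) →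
    ∀ σ : Ideal (OO n t) → Gal(Om/ℚ), IsSig n t f σ → ∀ c : Gal(Om/ℚ), IsCj c →
    ∀ (N0 : ℕ) (β : Om), β ∈ Kf n t (2 * f) → (∀ j : ℕ, VP P (cF f m R σ c N0 β j / c3 ^ k)) →
    UP P (cF f m R σ c N0 β 1 / c3 ^ k) →
    ∀ (T W ψ Q1 Q2 : PowerSeries Om),
      _root_.DN.F4.TWr (a1O (⊤ : Ideal (OO n t))) (a3O (⊤ : Ideal (OO n t)))
        (uF f m R σ c N0 β) T W →
      ψ ^ 2 * W = PowerSeries.X ^ 2 *
        (T - PowerSeries.C (xO (⊤ : Ideal (OO n t)) (1 / 2)) * W) →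
      Q2 ≠ 0 → Q2 * ψ = Q1 → ∀ K' : IntermediateField ℚ Om, FiniteDimensional ℚ K' →
      (∀ i, PowerSeries.coeff i Q1 ∈ K') → (∀ i, PowerSeries.coeff i Q2 ∈ K') →
      (∀ i, VP P (PowerSeries.coeff i Q1)) → (∀ i, VP P (PowerSeries.coeff i Q2)) → False

end Pool.Agent.DN
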