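import Pool.Agent.Lib.DI.Defs
import Pool.Agent.Lib.FW.RDefs

/-!
# Theorem DN (`p = 2`, `2` not split in `K`): definitions (author helper36)

`K` imaginary quadratic: `O = ℤ[w]`, `w ^ 2 = t w - n`, `t ∈ {0, 1}`, discriminant `-D`, `D = 4 n - t ^ 2`
(the class `SqN n t`, all imaginary quadratic fields). `Ine n t`: `t = 1`, `n` odd, that is: `2` is inert.
For a nonzero ideal `b` of `O` prime to `15`: the lattice `Lam b = b⁻¹`, with the marked points `1/3`, `± 1/5`: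
the framing `fr b` (of weight 1), the functions `XC b`, `WC b` of weight 0 and the numbers `A1 b`, `A3 b`:
`W² = 4 X³ + (A1 X + A3)²`, `X(1/3) = 0`, `W(1/3) = X(1/5) = A3`. This is `Y² + A1 X Y + A3 Y = X³`, `W = 2 Y + A1 X + A3`;
it is a model with good (supersingular) reduction at the primes above `2`, `A1 ≡ 0` modulo `2`.

All moduli are natural numbers. `f` is always odd and divisible by `15`; the conductor is `2 f`.
-/

set_option autoImplicit false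

open scoped Pointwise Topology
open Filter

noncomputable section

namespace Pool.Agent.DN

open Pool.Agent.MuZ Pool.Agent.FW NumberField
open Pool.Agent.DI (io ofC io_inj exists_io io_ofC ofC_io VP MP UP TP ex sqr sqr_sq kap)

/-! ## The ring `O` -/

/-- The imaginary quadratic fields: `w ^ 2 = t w - n`, of fundamental discriminant. -/
class SqN (n t : ℕ) : Prop where
  out : (t = 1 ∧ 0 < n ∧ Squarefree (4 * n - 1)) ∨ (t = 0 ∧ 0 < n ∧ Squarefree n ∧ n % 4 ≠ 3)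

/-- `2` is inert. -/
class Ine (n t : ℕ) : Prop extends SqN n t where
  one : t = 1
  odd : n % 2 = 1

/-- The discriminant is `- D`. -/
def Dk (n t : ℕ) : ℕ := 4 * n - t ^ 2

/-- The ring `O = ℤ[w]`, `w ^ 2 = t w - n`. -/
abbrev OO (n t : ℕ) : Type := QuadraticAlgebra ℤ (-(n : ℤ)) (t : ℤ)

variable {n t : ℕ}

/-- `w`. -/
def wI (n t : ℕ) : OO n t := ⟨0, 1⟩

/-- `√-D = 2 w - t`. -/
def sD (n t : ℕ) : OO n t := ⟨-t, 2⟩

/-- Complex conjugation on `O`. -/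
def cjO (v : OO n t) : OO n t := ⟨v.re + t * v.im, -v.im⟩

/-- The norm. -/
def Nm (v : OO n t) : ℤ := v.re ^ 2 + t * v.re * v.im + n * v.im ^ 2

/-- The quadratic character of `K` (used only for `d` odd and prime to `D`). -/
def eps (n t : ℕ) (d : ℤ) : ℤ := d.sign * jacobiSym (-(Dk n t : ℤ)) d.natAbs

/-- `v` is prime to `N`. -/
def Cop (v : OO n t) (N : ℕ) : Prop := IsCoprime (Nm v) (N : ℤ)

/-- The principal ideal. -/
abbrev sp (v : OO n t) : Ideal (OO n t) := Ideal.span {v}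

/-- The norm of an ideal (`0` for the zero ideal). -/
def NI (b : Ideal (OO n t)) : ℕ := Nat.card (OO n t ⧸ b)

/-- `b` is prime to `N`. -/
def PrI (b : Ideal (OO n t)) (N : ℕ) : Prop := b ⊔ Ideal.span {(N : OO n t)} = ⊤

/-- The conjugate ideal. -/
def cjI (b : Ideal (OO n t)) : Ideal (OO n t) := Ideal.span (cjO '' (b : Set (OO n t)))

/-- `a` and `a'` have the same class in the ray class group modulo `N`. -/
def Ray (N : ℕ) (a a' : Ideal (OO n t)) : Prop :=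
  ∃ α α' : OO n t, α ≠ 0 ∧ α' ≠ 0 ∧ Cop α N ∧ Cop α' N ∧ (N : OO n t) ∣ α - α' ∧
    sp α * a = sp α' * a'

/-! ## The complex side -/

/-- `w` as a complex number. -/
def wC (n t : ℕ) : ℂ := ⟨t / 2, √(Dk n t : ℝ) / 2⟩

/-- `v` as a complex number. -/
def toC (v : OO n t) : ℂ := v.re + v.im * wC n t

theorem toC_apply (v : OO n t) : toC v = v.re + v.im * wC n t := rfl

/-- The lattice `b⁻¹ = {z | b z ⊆ O}`. -/
def Lam (b : Ideal (OO n t)) : Set ℂ := {z | ∀ v ∈ b, ∃ u : OO n t, toC v * z = toC u}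

/-- `z` is a torsion point: `z ∈ K`. -/
def Tor (n t : ℕ) (z : ℂ) : Prop := ∃ (v : OO n t) (N : ℕ), 0 < N ∧ z = toC v / N

/-- A pair of periods of the lattice `Lam b`. -/
def LP (b : Ideal (OO n t)) : PeriodPair := by
  classical
  exact if h : ∃ L : PeriodPair, (L.lattice : Set ℂ) = Lam b then h.choose else DI.LO

/-- `℘(z; Lam b)`. -/
def wpC (b : Ideal (OO n t)) (z : ℂ) : ℂ := (LP b).weierstrassP z

/-- `℘'(z; Lam b)`. -/
def wdC (b : Ideal (OO n t)) (z : ℂ) : ℂ := (LP b).derivWeierstrassP z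

/-- `℘''(z; Lam b)`, `z` not in `Lam b`. -/
def w2C (b : Ideal (OO n t)) (z : ℂ) : ℂ := 6 * wpC b z ^ 2 - (LP b).g₂ / 2

/-- The framing, of weight 1: `℘'(1/3)/(℘(1/5) - ℘(1/3))`, for `b` prime to `15`. -/
def fr (b : Ideal (OO n t)) : ℂ := by
  classical
  exact if b ≠ ⊥ ∧ PrI b 15 then wdC b (1 / 3) / (wpC b (1 / 5) - wpC b (1 / 3)) else 0

/-- The coordinate `X = (℘(z) - ℘(1/3))/fr²`. -/
def XC (b : Ideal (OO n t)) (z : ℂ) : ℂ := (wpC b z - wpC b (1 / 3)) / fr b ^ 2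

/-- The coordinate `W = ℘'(z)/fr³`. -/
def WC (b : Ideal (OO n t)) (z : ℂ) : ℂ := wdC b z / fr b ^ 3

/-- The parameter `A1 = ℘''(1/3)/(℘'(1/3) fr)`. -/
def A1 (b : Ideal (OO n t)) : ℂ := w2C b (1 / 3) / (wdC b (1 / 3) * fr b)

/-- The parameter `A3 = W(1/3) = X(1/5)`. -/
def A3 (b : Ideal (OO n t)) : ℂ := WC b (1 / 3)

/-- The regularised series `K_s(z)` of the lattice `Lam b`. -/
def KtC (b : Ideal (OO n t)) (s : ℝ) (z : ℂ) : ℂ :=
  ∑' v : (LP b).lattice, (z + v)⁻¹ * (Real.exp (-s * ‖z + v‖ ^ 2) : ℝ)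

/-- The periodic function `K(z) = lim K_s(z)` of the lattice `Lam b`. -/
def KC (b : Ideal (OO n t)) (z : ℂ) : ℂ := limUnder (𝓝[>] (0 : ℝ)) (fun s => KtC b s z)

/-! ## The algebraic side -/

/-- `w` in `Om`. -/
def wO (n t : ℕ) : Om := ofC (wC n t)

/-- The embedding `O → Om`. -/
def toO (v : OO n t) : Om := v.re + v.im * wO n t

/-- The field `K = ℚ(√-D)`. -/
def KQ (n t : ℕ) : IntermediateField ℚ Om := IntermediateField.adjoin ℚ {wO n t}

/-- The group `Gal(Om/K)`. -/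
def GK (n t : ℕ) : Subgroup Gal(Om/ℚ) := (KQ n t).fixingSubgroup

/-- The algebraic number `X(z)`. -/
def xO (b : Ideal (OO n t)) (z : ℂ) : Om := ofC (XC b z)

/-- The algebraic number `W(z)`. -/
def vO (b : Ideal (OO n t)) (z : ℂ) : Om := ofC (WC b z)

/-- The algebraic number `A1`. -/
def a1O (b : Ideal (OO n t)) : Om := ofC (A1 b)

/-- The algebraic number `A3`. -/
def a3O (b : Ideal (OO n t)) : Om := ofC (A3 b)

/-- The algebraic number `fr(b')/fr(b)`. -/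
def rO (b b' : Ideal (OO n t)) : Om := ofC (fr b' / fr b)

/-- `P` is a nonzero prime of `ZZ`. -/
def Npr (P : Ideal ZZ) : Prop := P.IsPrime ∧ P ≠ ⊥

/-- `P` is a prime above `2`. -/
def Ab2 (P : Ideal ZZ) : Prop := Npr P ∧ MP P 2

/-- `τ` is a Frobenius element at `Q` for the exponent `l`. -/
def Fro (Q : Ideal ZZ) (l : ℕ) (τ : Gal(Om/ℚ)) : Prop := ∀ b : ZZ, τ • b - b ^ l ∈ Q

/-- **The Galois action.** `τ` acts on the `N`-torsion of all the curves `ℂ / Lam b` (`b` prime to `15`) as the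
identity map from `ℂ / Lam b` to `ℂ / Lam (a b)`. -/
structure Psi (τ : Gal(Om/ℚ)) (N : ℕ) (a : Ideal (OO n t)) : Prop where
  ne : a ≠ ⊥
  cop : PrI a (15 * N)
  a1 : ∀ b : Ideal (OO n t), b ≠ ⊥ → PrI b 15 → τ (a1O b) = a1O (a * b)
  a3 : ∀ b : Ideal (OO n t), b ≠ ⊥ → PrI b 15 → τ (a3O b) = a3O (a * b)
  xx : ∀ b : Ideal (OO n t), b ≠ ⊥ → PrI b 15 → ∀ z : ℂ, (N : ℂ) * z ∈ Lam b →
    τ (xO b z) = xO (a * b) z

/-! ## The smoothed functions -/

/-- The smoothed function `g(b, z) = (K(z; Lam (m b)) - N m K(z; Lam b))/fr(b)`. -/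
def gC (m b : Ideal (OO n t)) (z : ℂ) : ℂ := (KC (m * b) z - NI m * KC b z) / fr b

/-- The algebraic number `g(b, z)`. -/
def gO (m b : Ideal (OO n t)) (z : ℂ) : Om := ofC (gC m b z)

/-! ## Theta series (`F` is the modulus; it will be `2 f`) -/

/-- The theta series `∑ v⁻¹ e(F² N b |v|² z)`, `v` in `a/F + Lam b`. -/
def Tc (F : ℕ) (b : Ideal (OO n t)) (a : ℤ) (z : ℂ) : ℂ :=
  ∑' v : (LP b).lattice, ((a : ℂ) / F + v)⁻¹ * ex (F ^ 2 * NI b * ‖(a : ℂ) / F + v‖ ^ 2 * z)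

/-- The smoothed theta series. -/
def ThM (F : ℕ) (m b : Ideal (OO n t)) (z : ℂ) : ℂ :=
  (Tc F (m * b) 1 z - NI m * Tc F b 1 (NI m * z)) / fr b

/-- `lim ThM(r + i y)`. -/
def hM (F : ℕ) (m b : Ideal (OO n t)) (r : ℚ) : ℂ :=
  limUnder (𝓝[>] (0 : ℝ)) (fun y => ThM F m b (r + y * Complex.I))

/-- The algebraic number `hM`. -/
def etaM (F : ℕ) (m b : Ideal (OO n t)) (r : ℚ) : Om := ofC (hM F m b r)

/-- A system of representatives of the ray class group modulo `N`. -/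
structure IsRC (N : ℕ) (R : Finset (Ideal (OO n t))) : Prop where
  mem : ∀ b ∈ R, b ≠ ⊥ ∧ PrI b N
  ex : ∀ b : Ideal (OO n t), b ≠ ⊥ → PrI b N → ∃ b' ∈ R, Ray N b b'
  uni : ∀ b ∈ R, ∀ b' ∈ R, Ray N b b' → b = b'

/-- A character of odd order of the ray class group modulo `N`, zero outside of the ideals prime to `N`. -/
structure IsChi (N : ℕ) (χ : Ideal (OO n t) → Om) : Prop where
  zero : ∀ b : Ideal (OO n t), b = ⊥ ∨ ¬ PrI b N → χ b = 0
  ray : ∀ b b' : Ideal (OO n t), b ≠ ⊥ → b' ≠ ⊥ → PrI b N → PrI b' N → Ray N b b' → χ b = χ b'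
  mul : ∀ a b : Ideal (OO n t), χ (a * b) = χ a * χ b
  odd : ∃ m : ℕ, Odd m ∧ ∀ b : Ideal (OO n t), b ≠ ⊥ → PrI b N → χ b ^ m = 1

/-! ## The tame part at `2` (the inert case) -/

/-- A cube root of `2`. -/
def c3 : Om := by
  classical
  exact if h : ∃ y : Om, y ^ 3 = 2 then h.choose else 0

/-- The third root of unity congruent to `v` modulo `P` (`v` prime to `2`). -/
def zt (P : Ideal ZZ) (v : OO n t) : Om := by
  classical
  exact if h : ∃ y : Om, y ^ 3 = 1 ∧ MP P (y - toO v) then h.choose else 0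

/-- The type of `χ` at `P`: `χ((v)) ≡ v^j` modulo `P` for the `v` prime to `2`, congruent to `1` modulo `f`. -/
def Ty (P : Ideal ZZ) (f : ℕ) (χ : Ideal (OO n t) → Om) (j : ℕ) : Prop :=
  ∀ v : OO n t, (f : OO n t) ∣ v - 1 → Cop v 2 → MP P (χ (sp v) - toO v ^ j)

/-- Elements congruent to `1` modulo `f` and to `1, w, 1 + w` modulo `2` (`f` odd): `1, 1 + f (w - 1), 1 + f w`. -/
def tm (n t f : ℕ) : Finset (OO n t) := {1, ⟨1 - f, f⟩, ⟨1, f⟩}

/-- `E_b(r) = ∑ ζ_α^k η_(α b)(r/2)`, the sum over `α ∈ tm f`, `η` of modulus `2 f`; `k ∈ {1, 2}`. -/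
def etE (P : Ideal ZZ) (f k : ℕ) (m b : Ideal (OO n t)) (r : ℚ) : Om :=
  ∑ α ∈ tm n t f, zt P α ^ k * etaM (2 * f) m (sp α * b) (r / 2)

/-- `x(r) = (c3^k/2) ∑ χ(b) (fr(b)/fr(1)) (E_b(r) + E_b(-r))`, the sum over `R`, a system of representatives of the
ray class group modulo `f`, of ideals prime to `2 f`; `χ` of conductor dividing `2 f` and of type `k - 1`. -/
def xs (P : Ideal ZZ) (f k : ℕ) (m : Ideal (OO n t)) (R : Finset (Ideal (OO n t)))
    (χ : Ideal (OO n t) → Om) (r : ℚ) : Om :=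
  c3 ^ k / 2 * ∑ b ∈ R, χ b * rO ⊤ b * (etE P f k m b r + etE P f k m b (-r))

/-! ## Fields -/

/-- The field fixed by all `τ` in `Gal(Om/K)` which act on the `N`-torsion as an ideal in `H` (`15 ∣ N`). -/
def FixI (N : ℕ) (H : Ideal (OO n t) → Prop) : IntermediateField ℚ Om where
  carrier := {x | ∀ τ ∈ GK n t, ∀ a : Ideal (OO n t), Psi τ N a → H a → τ x = x}
  mul_mem' := by
    intro x y hx hy τ hτ a h1 h2
    rw [map_mul, hx τ hτ a h1 h2, hy τ hτ a h1 h2]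
  one_mem' := fun τ _ _ _ _ => map_one τ
  add_mem' := by
    intro x y hx hy τ hτ a h1 h2
    rw [map_add, hx τ hτ a h1 h2, hy τ hτ a h1 h2]
  zero_mem' := fun τ _ _ _ _ => map_zero τ
  algebraMap_mem' := fun r τ _ _ _ _ => τ.commutes r
  inv_mem' := by
    intro x hx τ hτ a h1 h2
    rw [map_inv₀, hx τ hτ a h1 h2]

/-- `v` is in `H_f`: the 2-primary part of `(O/2f)^*`. -/
def Hf (f : ℕ) (v : OO n t) : Prop :=
  Cop v (2 * f) ∧ ∃ j : ℕ, ((2 * f : ℕ) : OO n t) ∣ v ^ 2 ^ j - 1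

/-- `v` is in `H_N`: in `H_f`, and the norm is `±1` modulo `2 ^ N`. -/
def HN (f N : ℕ) (v : OO n t) : Prop :=
  Hf f v ∧ ((2 : ℤ) ^ N ∣ Nm v - 1 ∨ (2 : ℤ) ^ N ∣ Nm v + 1)

/-- The 2-primary part of the ray class group modulo `2 f`. -/
def H2 (f : ℕ) (a : Ideal (OO n t)) : Prop := ∃ j : ℕ, Ray (2 * f) (a ^ 2 ^ j) ⊤

/-- The classes in `H2 f` whose norm is `±1` modulo `2 ^ N`. -/
def H2N (f N : ℕ) (a : Ideal (OO n t)) : Prop :=
  H2 f a ∧ ((2 : ℤ) ^ N ∣ (NI a : ℤ) - 1 ∨ (2 : ℤ) ^ N ∣ (NI a : ℤ) + 1)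

/-- The classes of the principal ideals `(v)`, `v` in `H_f`. -/
def HP (f : ℕ) (a : Ideal (OO n t)) : Prop :=
  ∃ v : OO n t, v ≠ 0 ∧ Hf f v ∧ Ray (2 * f) a (sp v)

/-- The classes of the principal ideals `(v)`, `v` in `H_N` (`1 ≤ N`). -/
def HPN (f N : ℕ) (a : Ideal (OO n t)) : Prop :=
  ∃ v : OO n t, v ≠ 0 ∧ HN f N v ∧ Ray (f * 2 ^ N) a (sp v)

/-- The field `L` for `f`: the maximal subfield of odd degree over `K` of the ray class field modulo `2 f`. -/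
def Lf (n t f : ℕ) : IntermediateField ℚ Om := FixI (2 * f) (H2 (n := n) (t := t) f)

/-- The field `L_N`: the level of `ℚ_∞ L` (`2 ≤ N`). -/
def Ln (n t f N : ℕ) : IntermediateField ℚ Om := FixI (f * 2 ^ N) (H2N (n := n) (t := t) f N)

/-- The field `L'` for `f`; it contains the Hilbert class field. -/
def Mf (n t f : ℕ) : IntermediateField ℚ Om := FixI (2 * f) (HP (n := n) (t := t) f)

/-- The field `L'_N`. -/
def Mn (n t f N : ℕ) : IntermediateField ℚ Om := FixI (f * 2 ^ N) (HPN (n := n) (t := t) f N)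

/-! ## Elliptic units -/

/-- A half system of `Lam (m b) / Lam b` without `0` (`N m` odd). -/
structure IsHalf (m b : Ideal (OO n t)) (S : Finset ℂ) : Prop where
  mem : ∀ u ∈ S, u ∈ Lam (m * b) ∧ u ∉ Lam b
  ex : ∀ z ∈ Lam (m * b), z ∉ Lam b → ∃ u ∈ S, z - u ∈ Lam b ∨ z + u ∈ Lam b
  uni : ∀ u ∈ S, ∀ u' ∈ S, (u - u' ∈ Lam b ∨ u + u' ∈ Lam b) → u = u'

/-- A chosen half system. -/
def hs (m b : Ideal (OO n t)) : Finset ℂ := by
  classical
  exact if h : ∃ S, IsHalf m b S then h.choose else ∅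

/-- `W(u)² = 4 X³ + (A1 X + A3)²`. -/
def W2 (b : Ideal (OO n t)) (u : ℂ) : Om := 4 * xO b u ^ 3 + (a1O b * xO b u + a3O b) ^ 2

/-- The function `Θ_m(b, z) = (∏ W(u)²/(X(z) - X(u))³)³`, the product over `(E[m] - 0)/±1`. -/
def Theta (m b : Ideal (OO n t)) (z : ℂ) : Om :=
  ∏ u ∈ hs m b, (W2 b u * ((xO b z - xO b u) ^ 3)⁻¹) ^ 3

/-- A set of representatives of `H_N / ±1` modulo `f 2^N`. -/
structure IsRep (f N : ℕ) (T : Finset (OO n t)) : Prop where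
  mem : ∀ h ∈ T, HN f N h
  ex : ∀ v : OO n t, HN f N v →
    ∃ h ∈ T, ((f * 2 ^ N : ℕ) : OO n t) ∣ v - h ∨ ((f * 2 ^ N : ℕ) : OO n t) ∣ v + h
  uni : ∀ h ∈ T, ∀ h' ∈ T,
    (((f * 2 ^ N : ℕ) : OO n t) ∣ h - h' ∨ ((f * 2 ^ N : ℕ) : OO n t) ∣ h + h') → h = h'

/-- The elliptic unit `u'_N(b)`. -/
def uN (f N : ℕ) (m : Ideal (OO n t)) (T : Finset (OO n t)) (b : Ideal (OO n t)) : Om :=
  ∏ h ∈ T, Theta m b (toC h / (f * 2 ^ N : ℕ))

/-- The root of unity `exp(2 π i / N)` in `Om`. -/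
def zet (N : ℕ) : Om := ofC (ex (1 / N))

/-! ## The theorem -/

/-- The cross ratio `(℘(z₁) - ℘(z₂))/(℘(z₃) - ℘(z₂))` of the lattice `O`. -/
def crC (n t : ℕ) (z₁ z₂ z₃ : ℂ) : ℂ :=
  (wpC (⊤ : Ideal (OO n t)) z₁ - wpC (⊤ : Ideal (OO n t)) z₂) /
    (wpC (⊤ : Ideal (OO n t)) z₃ - wpC (⊤ : Ideal (OO n t)) z₂)

/-- The field generated by `√-D` and the cross ratios of the `x`-coordinates of the torsion points: the maximal
abelian extension of `K` (Weber, Takagi, Hasse; not used). -/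
def Wf (n t : ℕ) : IntermediateField ℚ Om :=
  IntermediateField.adjoin ℚ ({wO n t} ∪
    {x : Om | ∃ z₁ z₂ z₃ : ℂ, Tor n t z₁ ∧ Tor n t z₂ ∧ Tor n t z₃ ∧
      z₁ ∉ Lam (⊤ : Ideal (OO n t)) ∧ z₂ ∉ Lam (⊤ : Ideal (OO n t)) ∧
      z₃ ∉ Lam (⊤ : Ideal (OO n t)) ∧ x = ofC (crC n t z₁ z₂ z₃)})

/-- **Theorem DN.** -/
def ThmDN : Prop :=
  ∀ (n t : ℕ) [Ine n t] (F : IntermediateField ℚ Om), FiniteDimensional ℚ F → F ≤ Wf n t →
    XFinGen 2 (cyc 2 F)

end Pool.Agent.DN
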