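import Pool.Agent.Lib.DN.IfaceC
import Pool.Agent.Lib.DN.IfaceG

/-!
# Theorem DN: the interface of parts LS (local step) and F (non-constancy, the output)

Author helper36. Nothing is proved here. `S_LS` (helper66, helper89) uses parts T, C, D, E, `S_G3`; `S_F` is part F;
`S_G` (of `IfaceG`) is formal from `S_LS`, `S_V`, `S_Vq`, `S_F`.
-/

set_option autoImplicit false

open scoped Pointwise Topology nonZeroDivisors
open Filter

noncomputable section

namespace Pool.Agent.DN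

open Pool.Agent.MuZ Pool.Agent.FW NumberField IsDedekindDomain
open Pool.Agent.DI (io ofC io_inj exists_io io_ofC ofC_io VP MP UP TP ex sqr sqr_sq kap)

/-- `d` is in the group `D_P ∩ Gal(Om/L'_∞(i))`. -/
structure IsD (n t f : ℕ) (P : Ideal ZZ) (d : Gal(Om/ℚ)) : Prop where
  stab : ∀ x : ZZ, x ∈ P → d • x ∈ P
  fix : ∀ N : ℕ, ∀ x ∈ Mn n t f N, d x = x
  four : ∀ i : Om, i ^ 2 = -1 → d i = i

/-- **The local step (LS).** If for infinitely many `N` the sum `∑ χ(c) κ(u_N(c), d)` vanishes modulo `P` for all `d`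
in the decomposition group, then the function `xs` is constant modulo `P` on `ℤ[1/2]`. -/
def S_LS : Prop :=
  ∀ (n t : ℕ) [Ine n t] (f k : ℕ) (m : Ideal (OO n t)) (R : Finset (Ideal (OO n t)))
    (χ : Ideal (OO n t) → Om) (P : Ideal ZZ), FM f m → FR f R → IsRC f R → IsChi (2 * f) χ → Ab2 P →
    (k = 1 ∨ k = 2) → Ty P f χ (k - 1) →
    (∀ N0 : ℕ, ∃ N : ℕ, N0 ≤ N ∧ ∃ T : Finset (OO n t), IsRep f N T ∧ ∃ D : Finset (Ideal (OO n t)),
      IsDS f N D ∧ ∀ d : Gal(Om/ℚ), IsD n t f P d →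
        MP P (∑ c ∈ D, χ c * ((kap (uN f N m T c) d).val : Om))) →
    ∀ (c : ℤ) (j : ℕ), MP P (xs P f k m R χ (c / 2 ^ j) - xs P f k m R χ 0)

/-- **Proposition F.** For every character `χ` of odd order of type `k - 1`, `k = 1, 2` (also `χ = 1`) and every
smoothing ideal `m ≠ 1`: the function `xs` modulo `P` is not constant on the `Γ_1(M)`-orbit of `0`. -/
def S_F : Prop :=
  ∀ (n t : ℕ) [Ine n t] (f M k : ℕ) (m : Ideal (OO n t)) (R : Finset (Ideal (OO n t))), FM f m → FR f R →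
    IsRC f R → IsLw f m R M → m ≠ ⊤ → ∀ χ : Ideal (OO n t) → Om, IsChi (2 * f) χ →
    ∀ P : Ideal ZZ, Ab2 P → (k = 1 ∨ k = 2) → Ty P f χ (k - 1) →
    ∃ a b c d : ℤ, G0 M a b c d ∧ (M : ℤ) ∣ d - 1 ∧
      ¬ MP P (xs P f k m R χ (b / d) - xs P f k m R χ 0)

end Pool.Agent.DN
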