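import Pool.Agent.Lib.DN.Defs

/-!
# Theorem DN: the interface (parts O, L, B, R, D, E), author helper36

Every `S_...` is a statement which is proved by ONE part and used by others. Nothing is proved here.
`[SqN n t]`: all imaginary quadratic fields; `[Ine n t]`: `2` is inert. `b`, `a`, `m` nonzero ideals of `O`; `Lam b = b⁻¹`;
the framing needs `b` prime to `15` (`G15 b`). A false or awkward statement: mail helper36 and helper39 at once.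
Numbering as in DK (`DK/Iface.lean`) where possible.
-/

set_option autoImplicit false

open scoped Pointwise Topology nonZeroDivisors
open Filter

noncomputable section

namespace Pool.Agent.DN

open Pool.Agent.MuZ Pool.Agent.FW NumberField IsDedekindDomain
open Pool.Agent.DI (io ofC io_inj exists_io io_ofC ofC_io VP MP UP TP ex sqr sqr_sq kap)

/-! ## More definitions -/

/-- The conditions on `b`: the curve `ℂ / Lam b` is framed. -/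
structure G15 {n t : ℕ} (b : Ideal (OO n t)) : Prop where
  ne : b ≠ ⊥
  cop : PrI b 15

/-- A complete system of representatives of `Lam (a b) / Lam b`. -/
structure IsSys {n t : ℕ} (a b : Ideal (OO n t)) (R : Finset ℂ) : Prop where
  mem : ∀ u ∈ R, u ∈ Lam (a * b)
  ex : ∀ z ∈ Lam (a * b), ∃ u ∈ R, z - u ∈ Lam b
  uni : ∀ u ∈ R, ∀ u' ∈ R, u - u' ∈ Lam b → u = u'

/-- A prime ideal of degree one with norm `l`. -/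
def Deg1 {n t : ℕ} (q : Ideal (OO n t)) (l : ℕ) : Prop := q.IsPrime ∧ q ≠ ⊥ ∧ l.Prime ∧ NI q = l

/-- The prime `Q` of `ZZ` is above the ideal `a` (`a ⊆ Q`). -/
def Abv {n t : ℕ} (Q : Ideal ZZ) (a : Ideal (OO n t)) : Prop := ∀ v ∈ a, MP Q (toO v)

/-- The model `X, W` of all the curves `ℂ / Lam b` has good reduction at `Q`. -/
def GQ (n t : ℕ) (Q : Ideal ZZ) : Prop :=
  Npr Q ∧ ∀ b : Ideal (OO n t), G15 b →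
    VP Q (a1O b) ∧ UP Q (a3O b) ∧ UP Q (a1O b ^ 3 - 27 * a3O b)

/-- The kernel of reduction of `ℂ / Lam b` (model `X`), used for the primes with `GQ n t Q`. -/
def IK {n t : ℕ} (Q : Ideal ZZ) (b : Ideal (OO n t)) (z : ℂ) : Prop :=
  Tor n t z ∧ (z ∈ Lam b ∨ ¬ VP Q (xO b z))

/-- `z` is `Q`-primary modulo `Lam b`. -/
def Qp {n t : ℕ} (Q : Ideal ZZ) (b : Ideal (OO n t)) (z : ℂ) : Prop :=
  ∀ α β : OO n t, ¬ MP Q (toO α) → toC (α * β) * z ∈ Lam b → toC β * z ∈ Lam b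

/-- `(a b; c d)` with determinant `1`, `c` divisible by `M`. -/
def G0 (M : ℤ) (a b c d : ℤ) : Prop := a * d - b * c = 1 ∧ M ∣ c

/-! ## Part O: the ring `O` -/

/-- `O` is a Dedekind domain. -/
def S_O1 : Prop := ∀ (n t : ℕ) [SqN n t], IsDedekindDomain (OO n t)

/-- Multiplicativity of the norms. -/
def S_O2 : Prop :=
  ∀ (n t : ℕ) [SqN n t], (∀ v u : OO n t, Nm (v * u) = Nm v * Nm u) ∧ (∀ v : OO n t, 0 ≤ Nm v) ∧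
    (∀ v : OO n t, Nm v = 0 ↔ v = 0) ∧ (∀ v : OO n t, (NI (sp v) : ℤ) = Nm v) ∧
    (∀ a b : Ideal (OO n t), NI (a * b) = NI a * NI b) ∧ (∀ a : Ideal (OO n t), NI a = 0 ↔ a = ⊥) ∧
    (∀ v : OO n t, v * cjO v = (Nm v : OO n t)) ∧
    ∀ v : OO n t, toC (cjO v) = (starRingEnd ℂ) (toC v) ∧ ((Nm v : ℤ) : ℂ) = (‖toC v‖ : ℂ) ^ 2

/-- Conjugate ideals. -/
def S_O3 : Prop :=
  ∀ (n t : ℕ) [SqN n t], (∀ (a : Ideal (OO n t)) (v : OO n t), v ∈ cjI a ↔ cjO v ∈ a) ∧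
    (∀ a b : Ideal (OO n t), cjI (a * b) = cjI a * cjI b) ∧
    (∀ a : Ideal (OO n t), cjI (cjI a) = a ∧ NI (cjI a) = NI a ∧ a * cjI a = sp (NI a : OO n t)) ∧
    (∀ v : OO n t, cjI (sp v) = sp (cjO v)) ∧
    (∀ (a : Ideal (OO n t)) (N : ℕ), PrI (cjI a) N ↔ PrI a N) ∧
    ∀ (N : ℕ) (a a' : Ideal (OO n t)), Ray N a a' → Ray N (cjI a) (cjI a')

/-- The prime `(2)`, the inert case. -/
def S_O4 : Prop :=
  ∀ (n t : ℕ) [Ine n t], (sp (2 : OO n t)).IsPrime ∧ NI (sp (2 : OO n t)) = 4 ∧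
    (∀ v : OO n t, Cop v 2 ↔ ¬ (2 : OO n t) ∣ v) ∧ (∀ v : OO n t, Cop v 2 ↔ ¬ (2 : ℤ) ∣ Nm v) ∧
    (∀ v : OO n t, (2 : OO n t) ∣ v ↔ (2 : ℤ) ∣ v.re ∧ (2 : ℤ) ∣ v.im) ∧
    (∀ v : OO n t, Cop v 2 → (2 : OO n t) ∣ v ^ 3 - 1) ∧
    (∀ v : OO n t, (2 : OO n t) ∣ v ^ 2 - cjO v) ∧
    (∀ v : OO n t, Cop v 2 → (2 : OO n t) ∣ v - 1 ∨ (2 : OO n t) ∣ v - wI n t ∨
      (2 : OO n t) ∣ v - (1 + wI n t)) ∧
    ∀ v : OO n t, Cop v 2 → ¬ (2 : OO n t) ∣ v - 1 → (2 : OO n t) ∣ v ^ 2 + v + 1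

/-- A power of every ideal is principal. -/
def S_O5 : Prop :=
  ∀ (n t : ℕ) [SqN n t] (a : Ideal (OO n t)), a ≠ ⊥ → ∃ (h : ℕ) (α : OO n t), 0 < h ∧ α ≠ 0 ∧ a ^ h = sp α

/-- Coprimality to an integer. -/
def S_O6 : Prop :=
  ∀ (n t : ℕ) [SqN n t], (∀ (N : ℕ) (a b : Ideal (OO n t)), PrI (a * b) N ↔ PrI a N ∧ PrI b N) ∧
    (∀ (N N' : ℕ) (a : Ideal (OO n t)), PrI a (N * N') ↔ PrI a N ∧ PrI a N') ∧
    (∀ (N : ℕ) (a : Ideal (OO n t)), 0 < N → (PrI a N ↔ (NI a).Coprime N)) ∧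
    (∀ (N : ℕ) (v : OO n t), 0 < N → (PrI (sp v) N ↔ Cop v N)) ∧
    ∀ (N : ℕ) (a : Ideal (OO n t)), 0 < N → a ≠ ⊥ → PrI a N →
      ∃ v ∈ a, v ≠ 0 ∧ (N : OO n t) ∣ v - 1

/-- The ray class relation. In the last but two: `e` is a unit of `O`. -/
def S_O7 : Prop :=
  ∀ (n t : ℕ) [SqN n t] (N : ℕ), 0 < N →
    (∀ a : Ideal (OO n t), Ray N a a) ∧ (∀ a b : Ideal (OO n t), Ray N a b → Ray N b a) ∧
    (∀ a b c : Ideal (OO n t), Ray N a b → Ray N b c → Ray N a c) ∧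
    (∀ a b c d : Ideal (OO n t), Ray N a b → Ray N c d → Ray N (a * c) (b * d)) ∧
    (∀ a b c : Ideal (OO n t), c ≠ ⊥ → PrI c N → Ray N (a * c) (b * c) → Ray N a b) ∧
    (∀ a b : Ideal (OO n t), Ray N a b → (a ≠ ⊥ ↔ b ≠ ⊥) ∧ (PrI a N ↔ PrI b N)) ∧
    (∀ (M : ℕ) (a b : Ideal (OO n t)), M ∣ N → Ray N a b → Ray M a b) ∧
    (∀ v u : OO n t, v ≠ 0 → u ≠ 0 → Cop v N → Cop u N →
      (Ray N (sp v) (sp u) ↔ ∃ e : OO n t, Nm e = 1 ∧ (N : OO n t) ∣ v - e * u)) ∧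
    (∀ e : OO n t, 3 ≤ N → Nm e = 1 → (N : OO n t) ∣ e - 1 → e = 1) ∧
    (∀ a : Ideal (OO n t), a ≠ ⊥ → PrI a N → ∃ a' : Ideal (OO n t), a' ≠ ⊥ ∧ PrI a' N ∧ Ray N (a * a') ⊤) ∧
    ∃ R : Finset (Ideal (OO n t)), IsRC N R

/-- Every class contains a product of prime ideals of degree one with large norms. `C` is closed under
products, and contains the classes of these prime ideals. -/
def S_O8 : Prop :=
  ∀ (n t : ℕ) [SqN n t] (N M : ℕ), 0 < N → 0 < M → ∀ C : Ideal (OO n t) → Prop, C ⊤ →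
    (∀ a b, C a → C b → C (a * b)) → (∀ (q : Ideal (OO n t)) (l : ℕ), Deg1 q l → l.Coprime (N * M) → C q) →
    ∀ a : Ideal (OO n t), a ≠ ⊥ → PrI a N → ∃ a' : Ideal (OO n t), a' ≠ ⊥ ∧ PrI a' (N * M) ∧ C a' ∧ Ray N a a'

/-- The norms modulo `N` of the ideals prime to `N`: they depend only on the class. -/
def S_O9 : Prop :=
  ∀ (n t : ℕ) [SqN n t] (N : ℕ), 0 < N → ∀ a a' : Ideal (OO n t), PrI a N → PrI a' N → Ray N a a' →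
    (N : ℤ) ∣ (NI a : ℤ) - NI a'

/-! ## Part L: lattices -/

/-- `Lam b` is a lattice. -/
def S_L1 : Prop :=
  ∀ (n t : ℕ) [SqN n t] (b : Ideal (OO n t)), b ≠ ⊥ → ((LP b).lattice : Set ℂ) = Lam b

/-- Basic properties. -/
def S_L2 : Prop :=
  ∀ (n t : ℕ) [SqN n t],
    (∀ b : Ideal (OO n t), (0 : ℂ) ∈ Lam b ∧ (∀ z z' : ℂ, z ∈ Lam b → z' ∈ Lam b → z + z' ∈ Lam b) ∧
      (∀ z : ℂ, z ∈ Lam b → -z ∈ Lam b) ∧ ∀ (v : OO n t) (z : ℂ), z ∈ Lam b → toC v * z ∈ Lam b) ∧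
    (∀ (a b : Ideal (OO n t)) (z : ℂ), z ∈ Lam (a * b) ↔ ∀ v ∈ a, toC v * z ∈ Lam b) ∧
    (∀ (a b : Ideal (OO n t)) (z : ℂ), z ∈ Lam b → z ∈ Lam (a * b)) ∧
    (∀ (α : OO n t) (b : Ideal (OO n t)) (z : ℂ), z ∈ Lam (sp α * b) ↔ toC α * z ∈ Lam b) ∧
    (∀ z : ℂ, z ∈ Lam (⊤ : Ideal (OO n t)) ↔ ∃ v : OO n t, z = toC v) ∧
    (∀ (b : Ideal (OO n t)) (z : ℂ), b ≠ ⊥ → z ∈ Lam b → Tor n t z) ∧
    (∀ (b : Ideal (OO n t)) (z : ℂ), b ≠ ⊥ → (z ∈ Lam (cjI b) ↔ (starRingEnd ℂ) z ∈ Lam b)) ∧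
    ∀ (b : Ideal (OO n t)) (z : ℂ), b ≠ ⊥ → (Tor n t z ↔ ∃ N : ℕ, 0 < N ∧ (N : ℂ) * z ∈ Lam b)

/-- `Lam (a b) / Lam b` is isomorphic to `O / a`. -/
def S_L3 : Prop :=
  ∀ (n t : ℕ) [SqN n t] (a b : Ideal (OO n t)), a ≠ ⊥ → b ≠ ⊥ →
    (∃ z ∈ Lam (a * b), ∀ a' : Ideal (OO n t), a < a' → z ∉ Lam (a' * b)) ∧
    (∀ g ∈ Lam (a * b), (∀ a' : Ideal (OO n t), a < a' → g ∉ Lam (a' * b)) →
      (∀ v : OO n t, toC v * g ∈ Lam b ↔ v ∈ a) ∧ ∀ z ∈ Lam (a * b), ∃ v : OO n t, z - toC v * g ∈ Lam b) ∧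
    ∃ R : Finset ℂ, IsSys a b R ∧ R.card = NI a

/-- Annihilators; primary decomposition. -/
def S_L4 : Prop :=
  ∀ (n t : ℕ) [SqN n t] (b : Ideal (OO n t)), b ≠ ⊥ →
    (∀ z : ℂ, Tor n t z → ∃ a : Ideal (OO n t), a ≠ ⊥ ∧ z ∈ Lam (a * b) ∧
      ∀ v : OO n t, toC v * z ∈ Lam b ↔ v ∈ a) ∧
    (∀ a a' : Ideal (OO n t), a ≠ ⊥ → a' ≠ ⊥ → a ⊔ a' = ⊤ →
      (∀ z : ℂ, z ∈ Lam (a * b) → z ∈ Lam (a' * b) → z ∈ Lam b) ∧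
      ∀ z ∈ Lam (a * a' * b), ∃ z' ∈ Lam (a * b), ∃ z'' ∈ Lam (a' * b), z = z' + z'')

/-- `N`-torsion of `ℂ / Lam b` and `ℂ / Lam (a b)`, `a` prime to `N`. -/
def S_L5 : Prop :=
  ∀ (n t : ℕ) [SqN n t] (a b : Ideal (OO n t)) (N : ℕ), a ≠ ⊥ → b ≠ ⊥ → 0 < N → PrI a N →
    (∀ z : ℂ, (N : ℂ) * z ∈ Lam b → z ∈ Lam (a * b) → z ∈ Lam b) ∧
    ∀ z : ℂ, (N : ℂ) * z ∈ Lam (a * b) → ∃ z' : ℂ, (N : ℂ) * z' ∈ Lam b ∧ z - z' ∈ Lam (a * b)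

/-- The marked points; the points `1/N`; the points of order two in the inert case. -/
def S_L6 : Prop :=
  (∀ (n t : ℕ) [SqN n t] (b : Ideal (OO n t)) (N : ℕ), b ≠ ⊥ → 0 < N → PrI b N →
    ∀ v : OO n t, toC v / N ∈ Lam b ↔ (N : OO n t) ∣ v) ∧
  ∀ (n t : ℕ) [Ine n t] (b : Ideal (OO n t)), b ≠ ⊥ → ∀ T : ℂ, 2 * T ∈ Lam b → T ∉ Lam b →
    ∀ T' : ℂ, 2 * T' ∈ Lam b → T' ∉ Lam b →
      T' - T ∈ Lam b ∨ T' - toC (wI n t) * T ∈ Lam b ∨ T' - toC (1 + wI n t) * T ∈ Lam b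

/-! ## Part B: elliptic functions over `ℂ` -/

/-- Periods, parity, marked points, values at lattice points (conventions of Mathlib: `℘ = 0` there). -/
def S_B1 : Prop :=
  ∀ (n t : ℕ) [SqN n t] (b : Ideal (OO n t)), b ≠ ⊥ →
    (∀ z l : ℂ, l ∈ Lam b → wpC b (z + l) = wpC b z ∧ wdC b (z + l) = wdC b z) ∧
    (∀ z : ℂ, wpC b (-z) = wpC b z ∧ wdC b (-z) = -wdC b z) ∧
    (∀ z ∈ Lam b, wpC b z = 0 ∧ wdC b z = 0) ∧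
    (∀ z z' : ℂ, z ∉ Lam b → z' ∉ Lam b → (wpC b z = wpC b z' ↔ z - z' ∈ Lam b ∨ z + z' ∈ Lam b)) ∧
    (∀ z : ℂ, z ∉ Lam b → (wdC b z = 0 ↔ 2 * z ∈ Lam b)) ∧
    (PrI b 15 → fr b ≠ 0 ∧ A3 b ≠ 0 ∧ A1 b ^ 3 - 27 * A3 b ≠ 0 ∧
      wpC b (1 / 3) = fr b ^ 2 * A1 b ^ 2 / 12 ∧ XC b (1 / 3) = 0 ∧ XC b (1 / 5) = A3 b ∧
      WC b (1 / 3) = A3 b ∧
      (LP b).g₂ = fr b ^ 4 * (A1 b ^ 4 - 24 * A1 b * A3 b) / 12 ∧
      (LP b).g₃ = fr b ^ 6 * (-(A1 b ^ 6) + 36 * A1 b ^ 3 * A3 b - 216 * A3 b ^ 2) / 216)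

/-- The curve. -/
def S_B2 : Prop :=
  ∀ (n t : ℕ) [SqN n t] (b : Ideal (OO n t)), b ≠ ⊥ → ∀ z : ℂ, z ∉ Lam b →
    (wdC b z ^ 2 = 4 * wpC b z ^ 3 - (LP b).g₂ * wpC b z - (LP b).g₃ ∧
      AnalyticAt ℂ (wpC b) z ∧ AnalyticAt ℂ (wdC b) z ∧ HasDerivAt (wpC b) (wdC b z) z ∧
      HasDerivAt (wdC b) (w2C b z) z) ∧
    (PrI b 15 → WC b z ^ 2 = 4 * XC b z ^ 3 + (A1 b * XC b z + A3 b) ^ 2 ∧
      HasDerivAt (XC b) (fr b * WC b z) z ∧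
      HasDerivAt (WC b) (fr b * (6 * XC b z ^ 2 + A1 b * (A1 b * XC b z + A3 b))) z)

/-- The formulas of the Kummer line, for `℘` and for `X` (`b₂ = A1²`, `b₄ = A1 A3`, `b₆ = A3²`, `b₈ = 0`). -/
def S_B3 : Prop :=
  ∀ (n t : ℕ) [SqN n t] (b : Ideal (OO n t)), b ≠ ⊥ →
    (∀ z z' : ℂ, z ∉ Lam b → z' ∉ Lam b → z + z' ∉ Lam b → z - z' ∉ Lam b →
      (wpC b (z + z') + wpC b (z - z')) * (wpC b z - wpC b z') ^ 2 =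
        (2 * wpC b z * wpC b z' - (LP b).g₂ / 2) * (wpC b z + wpC b z') - (LP b).g₃ ∧
      wpC b (z + z') * wpC b (z - z') * (wpC b z - wpC b z') ^ 2 =
        (wpC b z * wpC b z' + (LP b).g₂ / 4) ^ 2 + (LP b).g₃ * (wpC b z + wpC b z') ∧
      (wpC b (z + z') - wpC b (z - z')) * (wpC b z - wpC b z') ^ 2 = -(wdC b z * wdC b z') ∧
      (PrI b 15 →
        (XC b (z + z') + XC b (z - z')) * (XC b z - XC b z') ^ 2 =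
          2 * XC b z * XC b z' * (XC b z + XC b z') + A1 b ^ 2 * (XC b z * XC b z') +
            A1 b * A3 b * (XC b z + XC b z') + A3 b ^ 2 ∧
        XC b (z + z') * XC b (z - z') * (XC b z - XC b z') ^ 2 =
          XC b z ^ 2 * XC b z' ^ 2 - A1 b * A3 b * (XC b z * XC b z') -
            A3 b ^ 2 * (XC b z + XC b z') ∧
        (XC b (z + z') - XC b (z - z')) * (XC b z - XC b z') ^ 2 = -(WC b z * WC b z'))) ∧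
    ∀ z : ℂ, 2 * z ∉ Lam b →
      wpC b (2 * z) * wdC b z ^ 2 =
        (wpC b z ^ 2 + (LP b).g₂ / 4) ^ 2 + 2 * (LP b).g₃ * wpC b z ∧
      (PrI b 15 → XC b (2 * z) * WC b z ^ 2 =
        XC b z ^ 4 - A1 b * A3 b * XC b z ^ 2 - 2 * A3 b ^ 2 * XC b z)

/-- Translation by the points of order two. -/
def S_B4 : Prop :=
  ∀ (n t : ℕ) [SqN n t] (b : Ideal (OO n t)), b ≠ ⊥ → ∀ T T' : ℂ, 2 * T ∈ Lam b → T ∉ Lam b →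
    2 * T' ∈ Lam b → T' ∉ Lam b → T - T' ∉ Lam b →
    wpC b T + wpC b T' + wpC b (T + T') = 0 ∧ wpC b T ≠ wpC b T' ∧
    (∀ z : ℂ, z ∉ Lam b → wdC b z ^ 2 =
      4 * (wpC b z - wpC b T) * (wpC b z - wpC b T') * (wpC b z - wpC b (T + T'))) ∧
    ∀ z : ℂ, z ∉ Lam b → z + T ∉ Lam b →
      (wpC b (z + T) - wpC b T) * (wpC b z - wpC b T) =
        (wpC b T' - wpC b T) * (wpC b (T + T') - wpC b T)

/-- The isogeny `(2)`. -/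
def S_B5 : Prop :=
  ∀ (n t : ℕ) [SqN n t] (b : Ideal (OO n t)), G15 b → XC b (2 / 5) ≠ 0 ∧
    fr (sp 2 * b) * XC b (2 / 5) = -2 * fr b * A3 b ∧
    (∀ z : ℂ, XC (sp 2 * b) z * A3 b ^ 2 = XC b (2 / 5) ^ 2 * XC b (2 * z)) ∧
    (∀ z : ℂ, WC (sp 2 * b) z * A3 b ^ 3 = -(XC b (2 / 5) ^ 3 * WC b (2 * z))) ∧
    A3 (sp 2 * b) * A3 b ^ 2 = XC b (2 / 5) ^ 3 ∧
    A1 (sp 2 * b) * A3 b = XC b (2 / 5) * A1 b

/-- Homogeneity and conjugation. -/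
def S_B7 : Prop :=
  ∀ (n t : ℕ) [SqN n t] (b : Ideal (OO n t)), b ≠ ⊥ →
    (∀ α : OO n t, α ≠ 0 →
      (∀ z : ℂ, wpC (sp α * b) z = toC α ^ 2 * wpC b (toC α * z) ∧
        wdC (sp α * b) z = toC α ^ 3 * wdC b (toC α * z) ∧
        KC (sp α * b) z = toC α * KC b (toC α * z)) ∧
      (LP (sp α * b)).g₂ = toC α ^ 4 * (LP b).g₂ ∧ (LP (sp α * b)).g₃ = toC α ^ 6 * (LP b).g₃) ∧
    (∀ z : ℂ, (starRingEnd ℂ) (wpC b z) = wpC (cjI b) ((starRingEnd ℂ) z) ∧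
      (starRingEnd ℂ) (wdC b z) = wdC (cjI b) ((starRingEnd ℂ) z) ∧
      (starRingEnd ℂ) (KC b z) = KC (cjI b) ((starRingEnd ℂ) z)) ∧
    (PrI b 15 →
      (∀ α : OO n t, α ≠ 0 → (3 : OO n t) ∣ α - 1 →
        ((5 : OO n t) ∣ α - 1 ∨ (5 : OO n t) ∣ α + 1) →
        fr (sp α * b) = toC α * fr b ∧ A1 (sp α * b) = A1 b ∧ A3 (sp α * b) = A3 b ∧
        ∀ z : ℂ, XC (sp α * b) z = XC b (toC α * z) ∧ WC (sp α * b) z = WC b (toC α * z)) ∧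
      (starRingEnd ℂ) (fr b) = fr (cjI b) ∧ (starRingEnd ℂ) (A1 b) = A1 (cjI b) ∧
      (starRingEnd ℂ) (A3 b) = A3 (cjI b) ∧
      ∀ z : ℂ, (starRingEnd ℂ) (XC b z) = XC (cjI b) ((starRingEnd ℂ) z) ∧
        (starRingEnd ℂ) (WC b z) = WC (cjI b) ((starRingEnd ℂ) z))

open Classical in
/-- Isogenies of odd degree: the product formula. -/
def S_B8 : Prop :=
  ∀ (n t : ℕ) [SqN n t] (a b : Ideal (OO n t)), a ≠ ⊥ → b ≠ ⊥ → PrI a 2 → ∀ R : Finset ℂ, IsSys a b R →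
    ∀ T : ℂ, 2 * T ∈ Lam b → T ∉ Lam b →
      (∀ z : ℂ, z ∉ Lam (a * b) →
        ∏ u ∈ R, (wpC b (z + u) - wpC b T) =
          (∏ u ∈ R, (if u ∈ Lam b then 1 else wpC b u - wpC b T)) *
            (wpC (a * b) z - wpC (a * b) T)) ∧
      ∀ u ∈ R, u ∉ Lam b → wpC b u ≠ wpC b T

/-- Isogenies: the sum formulas. -/
def S_B9 : Prop :=
  ∀ (n t : ℕ) [SqN n t] (a b : Ideal (OO n t)), a ≠ ⊥ → b ≠ ⊥ → ∀ R : Finset ℂ, IsSys a b R →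
    (∀ z z' : ℂ, z ∉ Lam (a * b) → z' ∉ Lam (a * b) →
      wpC (a * b) z - wpC (a * b) z' = ∑ u ∈ R, (wpC b (z + u) - wpC b (z' + u))) ∧
    (∀ z : ℂ, z ∉ Lam (a * b) → wdC (a * b) z = ∑ u ∈ R, wdC b (z + u)) ∧
    (∀ z : ℂ, z ∉ Lam (a * b) → KC (a * b) z = ∑ u ∈ R, KC b (z + u))

/-- The function `K`: limit, periods, parity, second difference. -/
def S_B10 : Prop :=
  ∀ (n t : ℕ) [SqN n t] (b : Ideal (OO n t)), b ≠ ⊥ →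
    (∀ z : ℂ, z ∉ Lam b → Tendsto (fun s => KtC b s z) (𝓝[>] 0) (𝓝 (KC b z))) ∧
    (∀ z l : ℂ, l ∈ Lam b → KC b (z + l) = KC b z) ∧ (∀ z : ℂ, KC b (-z) = -KC b z) ∧
    ∀ z u : ℂ, z ∉ Lam b → u ∉ Lam b → z + u ∉ Lam b → z - u ∉ Lam b →
      (KC b (z + u) + KC b (z - u) - 2 * KC b z) * (wpC b z - wpC b u) = wdC b z

/-- The smoothed function `g`. -/
def S_B11 : Prop :=
  ∀ (n t : ℕ) [SqN n t] (m b : Ideal (OO n t)), m ≠ ⊥ → G15 b → PrI m 2 → PrI m 15 →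
    ∀ z : ℂ, z ∉ Lam (m * b) → gC m b z = ∑ u ∈ hs m b, WC b z / (XC b z - XC b u)

/-- Injectivity: the numbers `A1`, `A3` determine the lattice with its marked points. -/
def S_B13 : Prop :=
  ∀ (n t : ℕ) [SqN n t] (b b' : Ideal (OO n t)), G15 b → G15 b' → A1 b = A1 b' → A3 b = A3 b' →
    ∃ α α' : OO n t, α ≠ 0 ∧ α' ≠ 0 ∧ Cop α 15 ∧ Cop α' 15 ∧ sp α * b = sp α' * b' ∧
      (3 : OO n t) ∣ α - α' ∧ ((5 : OO n t) ∣ α - α' ∨ (5 : OO n t) ∣ α + α')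

/-- Half systems exist. -/
def S_B14 : Prop :=
  ∀ (n t : ℕ) [SqN n t] (m b : Ideal (OO n t)), m ≠ ⊥ → b ≠ ⊥ → PrI m 2 →
    IsHalf m b (hs m b) ∧ 2 * (hs m b).card + 1 = NI m

/-- The product over the points of order two. -/
def S_B15 : Prop :=
  ∀ (n t : ℕ) [SqN n t] (b : Ideal (OO n t)), b ≠ ⊥ → ∀ T T' : ℂ, 2 * T ∈ Lam b → T ∉ Lam b →
    2 * T' ∈ Lam b → T' ∉ Lam b → T - T' ∉ Lam b → ∀ u z : ℂ, 2 * u ∉ Lam b → 2 * z ∉ Lam b →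
    (wpC b z - wpC b u) * (wpC b (z + T) - wpC b u) * (wpC b (z + T') - wpC b u) *
      (wpC b (z + (T + T')) - wpC b u) =
    -(wdC b u ^ 2) * (wpC b (2 * z) - wpC b (2 * u))

/-- The divisor argument: products over `E[l]` of the functions `℘(z) - ℘(u)`, `u` in `E[m]`. -/
def S_B16 : Prop :=
  ∀ (n t : ℕ) [SqN n t] (l m b : Ideal (OO n t)), l ≠ ⊥ → m ≠ ⊥ → b ≠ ⊥ → PrI m 2 → l ⊔ m = ⊤ →
    ∀ R : Finset ℂ, IsSys l b R → ∃ c : ℂ, c ≠ 0 ∧ ∀ z : ℂ, z ∉ Lam (l * m * b) →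
      ∏ v ∈ R, ∏ u ∈ hs m b, (wpC b (z + v) - wpC b u) =
        c * ∏ u ∈ hs m (l * b), (wpC (l * b) z - wpC (l * b) u)

/-! ## Part R: algebraicity, potential good reduction -/

/-- The numbers `A1`, `A3`, `X(z)`, `W(z)` are algebraic; complex conjugation on `Om`; the framing and `g`. -/
def S_R1 : Prop :=
  (∀ (n t : ℕ) [Ine n t],
    (∀ b : Ideal (OO n t), G15 b → io (a1O b) = A1 b ∧ io (a3O b) = A3 b ∧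
      (∀ z : ℂ, Tor n t z → io (xO b z) = XC b z ∧ io (vO b z) = WC b z) ∧
      ∀ b' : Ideal (OO n t), G15 b' → io (rO b b') = fr b' / fr b ∧ rO b b' ≠ 0) ∧
    ∀ m b : Ideal (OO n t), m ≠ ⊥ → G15 b → PrI m 2 → PrI m 15 → ∀ z : ℂ, Tor n t z →
      z ∉ Lam (m * b) → io (gO m b z) = gC m b z) ∧
  ∃ c : Gal(Om/ℚ), (∀ x : Om, io (c x) = (starRingEnd ℂ) (io x)) ∧
    ∀ (n t : ℕ) [Ine n t] (b : Ideal (OO n t)), G15 b →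
      c (a1O b) = a1O (cjI b) ∧ c (a3O b) = a3O (cjI b) ∧
      ∀ z : ℂ, Tor n t z → c (xO b z) = xO (cjI b) ((starRingEnd ℂ) z) ∧
        c (vO b z) = vO (cjI b) ((starRingEnd ℂ) z)

/-- Good reduction of the model `X`: above `2` (supersingular) and at almost all primes. -/
def S_R2 : Prop :=
  ∀ (n t : ℕ) [Ine n t],
    (∀ P : Ideal ZZ, Ab2 P → GQ n t P ∧ ∀ b : Ideal (OO n t), G15 b → TP P 2 (a1O b)) ∧
    ∃ B : ℕ, 0 < B ∧ ∀ Q : Ideal ZZ, Npr Q → ¬ MP Q (B : Om) → GQ n t Q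

/-- Injectivity modulo almost all primes. -/
def S_R3 : Prop :=
  ∀ (n t : ℕ) [Ine n t], ∃ B : ℕ, 0 < B ∧ ∀ Q : Ideal ZZ, Npr Q → ¬ MP Q (B : Om) →
    ∀ b b' : Ideal (OO n t), G15 b → G15 b' → MP Q (a1O b - a1O b') → MP Q (a3O b - a3O b') →
      a1O b = a1O b' ∧ a3O b = a3O b'

/-! ## Part D: reduction -/

/-- The kernel of reduction, at the primes of good reduction of the model. -/
def S_D1 : Prop :=
  ∀ (n t : ℕ) [Ine n t] (Q : Ideal ZZ), GQ n t Q → ∀ b : Ideal (OO n t), G15 b →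
    (∀ z z' : ℂ, IK Q b z → IK Q b z' → IK Q b (z + z')) ∧ (∀ z ∈ Lam b, IK Q b z) ∧
    (∀ (v : OO n t) (z : ℂ), IK Q b z → IK Q b (toC v * z)) ∧
    (∀ (a : Ideal (OO n t)) (z : ℂ), a ≠ ⊥ → PrI a 15 → IK Q b z → IK Q (a * b) z) ∧
    (∀ z : ℂ, IK Q b z → Qp Q b z) ∧
    (∀ z z' : ℂ, Tor n t z → ¬ IK Q b z → IK Q b z' → MP Q (xO b (z + z') - xO b z)) ∧
    (∀ z z' : ℂ, Tor n t z → Tor n t z' → ¬ IK Q b z → ¬ IK Q b z' → MP Q (xO b z - xO b z') →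
      IK Q b (z + z') ∨ IK Q b (z - z'))

/-- The primes above `2`: supersingular reduction, Kronecker's congruence, units. -/
def S_D2 : Prop :=
  ∀ (n t : ℕ) [Ine n t] (P : Ideal ZZ), Ab2 P → ∀ b : Ideal (OO n t), G15 b →
    (∀ (z : ℂ) (j : ℕ), (2 : ℂ) ^ j * z ∈ Lam b → IK P b z) ∧
    (∀ z : ℂ, Tor n t z → ¬ IK P b z → ¬ IK P (sp 2 * b) z ∧
      MP P (xO (sp 2 * b) z - xO b z ^ 4)) ∧ MP P (a3O (sp 2 * b) - a3O b ^ 4) ∧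
    (∀ z : ℂ, Tor n t z → ¬ IK P b z → VP P (xO b z) ∧ UP P (vO b z) ∧
      MP P (vO b z - a3O b)) ∧
    (∀ z : ℂ, Tor n t z → ¬ Qp P b z → ¬ IK P b z) ∧
    (∀ z z' : ℂ, Tor n t z → Tor n t z' → ¬ IK P b z → ¬ IK P b z' → ¬ Qp P b (z + z') →
      ¬ Qp P b (z - z') → UP P (xO b z - xO b z')) ∧
    ∀ a : Ideal (OO n t), a ≠ ⊥ → PrI a 2 → PrI a 15 → UP P (rO b (a * b))

/-- Good primes above a prime ideal of degree one: Kronecker's congruence. -/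
def S_D3 : Prop :=
  ∀ (n t : ℕ) [Ine n t] (q : Ideal (OO n t)) (l : ℕ), Deg1 q l → l.Coprime 30 → ∀ Q : Ideal ZZ,
    GQ n t Q → Abv Q q → ∀ b : Ideal (OO n t), G15 b →
      (∀ u ∈ Lam (q * b), IK Q b u) ∧ MP Q (a1O (q * b) - a1O b ^ l) ∧
      MP Q (a3O (q * b) - a3O b ^ l) ∧
      ∀ z : ℂ, Tor n t z → ¬ IK Q b z → ¬ IK Q (q * b) z ∧ MP Q (xO (q * b) z - xO b z ^ l)

/-- The points of order `q` in the kernel have the same valuation: for `q = (la)`, `u ∈ Lam (q b)`,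
`u ∉ Lam b`: `la X(u) ^ ((l - 1)/2)` is a unit. -/
def S_D4 : Prop :=
  ∀ (n t : ℕ) [Ine n t] (la : OO n t) (l : ℕ), Deg1 (sp la) l → l.Coprime 30 → ∀ Q : Ideal ZZ,
    GQ n t Q → MP Q (toO la) → ∀ b : Ideal (OO n t), G15 b → ∀ u : ℂ, toC la * u ∈ Lam b →
      u ∉ Lam b → UP Q (toO la * xO b u ^ ((l - 1) / 2))

/-- Theta units, at all primes. -/
def S_D5 : Prop :=
  ∀ (n t : ℕ) [Ine n t] (m b : Ideal (OO n t)), m ≠ ⊥ → G15 b → PrI m 2 → PrI m 15 →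
    ∀ Q : Ideal ZZ, Npr Q → ∀ z : ℂ, Tor n t z → (∀ u ∈ Lam (m * b), ¬ Qp Q b (z + u)) →
      UP Q (Theta m b z)

/-- Theta units: congruences, at the good primes. -/
def S_D6 : Prop :=
  ∀ (n t : ℕ) [Ine n t] (m b : Ideal (OO n t)), m ≠ ⊥ → G15 b → PrI m 2 → PrI m 15 →
    ∀ Q : Ideal ZZ, GQ n t Q → ¬ MP Q 2 → ¬ Abv Q m → ∀ z : ℂ, Tor n t z →
    (∀ u ∈ Lam (m * b), ¬ Qp Q b (z + u)) →
    (∀ z' : ℂ, IK Q b z' → MP Q (Theta m b (z + z') - Theta m b z)) ∧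
    ∀ (q : Ideal (OO n t)) (l : ℕ), Deg1 q l → l.Coprime 30 → Abv Q q →
      MP Q (Theta m (q * b) z - Theta m b z ^ l)

/-- Distribution of `Theta`: exact for odd ideals, up to a sign for `2`. -/
def S_D7 : Prop :=
  ∀ (n t : ℕ) [Ine n t] (m b : Ideal (OO n t)), m ≠ ⊥ → G15 b → PrI m 2 → PrI m 15 →
    (∀ (l : Ideal (OO n t)) (R : Finset ℂ), l ≠ ⊥ → PrI l 2 → PrI l 15 → l ⊔ m = ⊤ → IsSys l b R →
      ∀ z : ℂ, Tor n t z → z ∉ Lam (l * m * b) →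
        ∏ v ∈ R, Theta m b (z + v) = Theta m (l * b) z) ∧
    ∃ s : ℤ, (s = 1 ∨ s = -1) ∧ ∀ R : Finset ℂ, IsSys (sp 2) b R → ∀ z : ℂ, Tor n t z →
      2 * z ∉ Lam (m * b) → ∏ v ∈ R, Theta m b (z + v) = s * Theta m b (2 * z)

/-- `Theta` is a well defined even function. -/
def S_D8 : Prop :=
  ∀ (n t : ℕ) [Ine n t] (m b : Ideal (OO n t)), m ≠ ⊥ → G15 b → PrI m 2 → PrI m 15 →
    (∀ S : Finset ℂ, IsHalf m b S → ∀ z : ℂ,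
      ∏ u ∈ S, (W2 b u * ((xO b z - xO b u) ^ 3)⁻¹) ^ 3 = Theta m b z) ∧
    (∀ z : ℂ, Theta m b (-z) = Theta m b z ∧ ∀ l ∈ Lam b, Theta m b (z + l) = Theta m b z) ∧
    (∀ (α : OO n t) (z : ℂ), α ≠ 0 → Cop α 15 → Tor n t z →
      Theta m (sp α * b) z = Theta m b (toC α * z)) ∧
    ∀ z : ℂ, Tor n t z → z ∉ Lam (m * b) → Theta m b z ≠ 0

/-- `g` at the primes above `2`. -/
def S_D9 : Prop :=
  ∀ (n t : ℕ) [Ine n t] (P : Ideal ZZ), Ab2 P → ∀ m b : Ideal (OO n t), m ≠ ⊥ → G15 b →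
    PrI m 2 → PrI m 15 → ∀ z : ℂ, Tor n t z → (∀ u ∈ Lam (m * b), ¬ Qp P b (z + u)) →
      VP P (gO m b z) ∧ gO m b z = ∑ u ∈ hs m b, vO b z * (xO b z - xO b u)⁻¹

/-- The valuations at the points of order `2 ^ j`: `X(z + d) - X(z)` has valuation `1/(3 4^(j-1))` (for part LS). -/
def S_D10 : Prop :=
  ∀ (n t : ℕ) [Ine n t] (P : Ideal ZZ), Ab2 P → ∀ b : Ideal (OO n t), G15 b → ∀ (j : ℕ) (z d : ℂ),
    Tor n t z → ¬ IK P b z → (2 : ℂ) ^ (j + 1) * d ∈ Lam b → (2 : ℂ) ^ j * d ∉ Lam b →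
    UP P ((xO b (z + d) - xO b z) ^ (3 * 4 ^ j) / 2)

/-! ## Part E: Galois action -/

/-- The main theorem of complex multiplication, for `Gal(Om/K)`; `15 ∣ N`. -/
def S_E1 : Prop :=
  ∀ (n t : ℕ) [Ine n t] (N : ℕ), 0 < N → 15 ∣ N →
    (∀ τ ∈ GK n t, ∃ a : Ideal (OO n t), Psi τ N a) ∧
    (∀ (τ : Gal(Om/ℚ)) (a a' : Ideal (OO n t)), Psi τ N a → Psi τ N a' → Ray N a a') ∧
    (∀ (τ : Gal(Om/ℚ)) (a a' : Ideal (OO n t)), Psi τ N a → Ray N a a' → Psi τ N a') ∧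
    (∀ (τ τ' : Gal(Om/ℚ)) (a a' : Ideal (OO n t)), Psi τ N a → Psi τ' N a' → Psi (τ * τ') N (a * a')) ∧
    ∀ (τ : Gal(Om/ℚ)) (M : ℕ) (a : Ideal (OO n t)), Psi τ N a → M ∣ N → 15 ∣ M → Psi τ M a

/-- Frobenius elements, almost all degree one primes. -/
def S_E2 : Prop :=
  ∀ (n t : ℕ) [Ine n t] (N : ℕ), 0 < N → 15 ∣ N → ∃ B : ℕ, 0 < B ∧ ∀ (q : Ideal (OO n t)) (l : ℕ),
    Deg1 q l → l.Coprime B → ∀ Q : Ideal ZZ, Npr Q → Abv Q q → ∀ τ ∈ GK n t, Fro Q l τ → Psi τ N q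

/-- Frobenius elements at the primes above `2`. -/
def S_E3 : Prop :=
  ∀ (n t : ℕ) [Ine n t] (P : Ideal ZZ) (τ : Gal(Om/ℚ)), Ab2 P → τ ∈ GK n t → Fro P 4 τ →
    ∀ N : ℕ, Odd N → 15 ∣ N → Psi τ N (sp (2 : OO n t))

/-- Inertia. -/
def S_E4 : Prop :=
  ∀ (n t : ℕ) [Ine n t] (Q : Ideal ZZ), Npr Q → ∀ τ ∈ GK n t, τ ∈ Q.inertia Gal(Om/ℚ) →
    (MP Q 2 → ∀ N : ℕ, Odd N → 15 ∣ N → Psi τ N (⊤ : Ideal (OO n t))) ∧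
    ∀ (v : OO n t) (b δ : Ideal (OO n t)) (N : ℕ), 0 < N → 15 ∣ N → G15 b → δ ≠ ⊥ →
      sp (N : OO n t) ≤ δ → ¬ Abv Q δ → (15 : OO n t) ∣ v - 1 → Psi τ N (sp v) →
      ∀ z ∈ Lam (δ * b), xO b (toC v * z) = xO b z

/-- The cyclotomic character. -/
def S_E6 : Prop :=
  ∀ (n t : ℕ) [Ine n t] (τ : Gal(Om/ℚ)) (N : ℕ) (a : Ideal (OO n t)), τ ∈ GK n t → 0 < N → 15 ∣ N →
    Psi τ N a → ∀ ζ : Om, ζ ^ N = 1 → τ ζ = ζ ^ NI a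

/-- Surjectivity. -/
def S_E7 : Prop :=
  ∀ (n t : ℕ) [Ine n t] (N : ℕ) (a : Ideal (OO n t)), 0 < N → 15 ∣ N → a ≠ ⊥ → PrI a N →
    ∃ τ ∈ GK n t, Psi τ N a

/-- Galois theory for `FixI`. -/
def S_E8 : Prop :=
  ∀ (n t : ℕ) [Ine n t] (N : ℕ) (H : Ideal (OO n t) → Prop), 0 < N → 15 ∣ N → H ⊤ →
    (∀ a, H a → a ≠ ⊥ ∧ PrI a N) → (∀ a a', H a → Ray N a a' → H a') →
    (∀ a a', H a → H a' → H (a * a')) →
    FiniteDimensional ℚ (FixI N H) ∧ KQ n t ≤ FixI N H ∧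
    ∀ τ ∈ GK n t, ∀ a : Ideal (OO n t), Psi τ N a → ((∀ x ∈ FixI N H, τ x = x) ↔ H a)

/-- The fields are normal over `ℚ`; at `2` they are tamely ramified: cubes of inertia elements fix them. -/
def S_E9 : Prop :=
  ∀ (n t : ℕ) [Ine n t] (f : ℕ), Odd f → 15 ∣ f →
    (∀ τ : Gal(Om/ℚ), ∀ x ∈ Mf n t f, τ x ∈ Mf n t f) ∧
    (∀ (N : ℕ) (τ : Gal(Om/ℚ)), 1 ≤ N → ∀ x ∈ Mn n t f N, τ x ∈ Mn n t f N) ∧
    (∀ τ : Gal(Om/ℚ), ∀ x ∈ Lf n t f, τ x ∈ Lf n t f) ∧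
    (∀ (N : ℕ) (τ : Gal(Om/ℚ)), 1 ≤ N → ∀ x ∈ Ln n t f N, τ x ∈ Ln n t f N) ∧
    (∀ P : Ideal ZZ, Ab2 P → ∀ τ ∈ P.inertia Gal(Om/ℚ), ∀ x ∈ Mf n t f, τ (τ (τ x)) = x) ∧
    Lf n t f ≤ Mf n t f ∧ ∀ N : ℕ, 1 ≤ N → Ln n t f N ≤ Mn n t f N

/-- Galois action on `W`, the framing, `g` and `Theta`. -/
def S_E10 : Prop :=
  ∀ (n t : ℕ) [Ine n t] (τ : Gal(Om/ℚ)) (N : ℕ) (a : Ideal (OO n t)), 0 < N → 15 ∣ N → Psi τ N a →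
    (∀ b : Ideal (OO n t), G15 b →
      (∀ z : ℂ, (N : ℂ) * z ∈ Lam b → τ (vO b z) = vO (a * b) z) ∧
      ∀ c : Ideal (OO n t), G15 c → τ (rO b c) = rO (a * b) (a * c)) ∧
    ∀ m b : Ideal (OO n t), m ≠ ⊥ → G15 b → PrI m 2 → PrI m 15 → NI m ∣ N →
      ∀ z : ℂ, (N : ℂ) * z ∈ Lam b →
      (z ∉ Lam (m * b) → τ (gO m b z) = gO m (a * b) z) ∧
      τ (Theta m b z) = Theta m (a * b) z

end Pool.Agent.DN
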