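import Pool.Agent.Lib.DN.Base

/-!
# Theorem DN: part B transferred to the algebraic numbers `Om`; the Legendre coordinate (statements)

`XOm b`: the facts of part B for the algebraic numbers `a1O b`, `a3O b`, `xO b z`, `vO b z` (`z` a torsion point). `S_XOm` is
proved in `DN/E/XOm.lean` (from `S_B1`, `S_B2`, `S_B3`, `S_B5`, `S_B7`, `S_R1`).
-/

set_option autoImplicit false

open scoped Pointwise nonZeroDivisors

noncomputable section

namespace Pool.Agent.DN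

open Pool.Agent.MuZ Pool.Agent.FW NumberField IsDedekindDomain
open Pool.Agent.DI (io ofC io_inj exists_io io_ofC ofC_io VP MP UP TP ex)

/-- The facts of part B over `Om`. -/
structure XOm {n t : ℕ} (b : Ideal (OO n t)) : Prop where
  /-- periods -/
  per : ∀ z l : ℂ, l ∈ Lam b → xO b (z + l) = xO b z ∧ vO b (z + l) = vO b z
  /-- periods, second form -/
  cng : ∀ z z' : ℂ, z - z' ∈ Lam b → xO b z = xO b z' ∧ vO b z = vO b z'
  /-- parity -/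
  neg : ∀ z : ℂ, Tor n t z → xO b (-z) = xO b z ∧ vO b (-z) = -vO b z
  /-- even and periodic -/
  cng' : ∀ z z' : ℂ, (z - z' ∈ Lam b ∨ z + z' ∈ Lam b) → xO b z = xO b z'
  /-- lattice points -/
  lat : ∀ z ∈ Lam b, xO b z = -(a1O b ^ 2) / 12 ∧ vO b z = 0
  /-- injectivity -/
  inj : ∀ z z' : ℂ, Tor n t z → Tor n t z' → z ∉ Lam b → z' ∉ Lam b → xO b z = xO b z' →
    z - z' ∈ Lam b ∨ z + z' ∈ Lam b
  /-- `A3 ≠ 0` -/
  a3 : a3O b ≠ 0
  /-- the discriminant -/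
  disc : a1O b ^ 3 - 27 * a3O b ≠ 0
  /-- `X(1/3) = 0` -/
  x3 : xO b (1 / 3) = 0
  /-- `X(1/5) = A3` -/
  x5 : xO b (1 / 5) = a3O b
  /-- `W(1/3) = A3` -/
  v3 : vO b (1 / 3) = a3O b
  /-- the curve -/
  crv : ∀ z : ℂ, Tor n t z → z ∉ Lam b →
    vO b z ^ 2 = 4 * xO b z ^ 3 + (a1O b * xO b z + a3O b) ^ 2
  /-- points of order two -/
  two : ∀ z : ℂ, Tor n t z → z ∉ Lam b → (vO b z = 0 ↔ 2 * z ∈ Lam b)
  /-- the Kummer line: sum -/
  kad : ∀ z z' : ℂ, Tor n t z → Tor n t z' → z ∉ Lam b → z' ∉ Lam b → z + z' ∉ Lam b →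
    z - z' ∉ Lam b → (xO b (z + z') + xO b (z - z')) * (xO b z - xO b z') ^ 2 =
      2 * xO b z * xO b z' * (xO b z + xO b z') + a1O b ^ 2 * (xO b z * xO b z') +
        a1O b * a3O b * (xO b z + xO b z') + a3O b ^ 2
  /-- the Kummer line: product -/
  kml : ∀ z z' : ℂ, Tor n t z → Tor n t z' → z ∉ Lam b → z' ∉ Lam b → z + z' ∉ Lam b →
    z - z' ∉ Lam b → xO b (z + z') * xO b (z - z') * (xO b z - xO b z') ^ 2 =
      xO b z ^ 2 * xO b z' ^ 2 - a1O b * a3O b * (xO b z * xO b z') -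
        a3O b ^ 2 * (xO b z + xO b z')
  /-- the Kummer line: difference -/
  ksb : ∀ z z' : ℂ, Tor n t z → Tor n t z' → z ∉ Lam b → z' ∉ Lam b → z + z' ∉ Lam b →
    z - z' ∉ Lam b → (xO b (z + z') - xO b (z - z')) * (xO b z - xO b z') ^ 2 =
      -(vO b z * vO b z')
  /-- duplication -/
  dup : ∀ z : ℂ, Tor n t z → 2 * z ∉ Lam b → xO b (2 * z) * vO b z ^ 2 =
    xO b z ^ 4 - a1O b * a3O b * xO b z ^ 2 - 2 * a3O b ^ 2 * xO b z
  /-- homogeneity, elements `1` modulo `3` and `±1` modulo `5` -/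
  hom : ∀ α : OO n t, α ≠ 0 → (3 : OO n t) ∣ α - 1 → ((5 : OO n t) ∣ α - 1 ∨ (5 : OO n t) ∣ α + 1) →
    a1O (sp α * b) = a1O b ∧ a3O (sp α * b) = a3O b ∧
      ∀ z : ℂ, xO (sp α * b) z = xO b (toC α * z) ∧ vO (sp α * b) z = vO b (toC α * z)
  /-- homogeneity, elements prime to `15` -/
  hmg : ∀ α : OO n t, α ≠ 0 → Cop α 15 → ∀ z : ℂ, Tor n t z →
    rO b (sp α * b) ^ 2 * xO (sp α * b) z = toO α ^ 2 * (xO b (toC α * z) - xO b (toC α * (1 / 3)))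
  /-- the quotient of the framings is not `0` -/
  rne : ∀ c : Ideal (OO n t), G15 c → rO b c ≠ 0
  /-- the isogeny `(2)` -/
  iso2 : xO b (2 / 5) ≠ 0 ∧ (∀ z : ℂ, Tor n t z →
    xO (sp 2 * b) z * a3O b ^ 2 = xO b (2 / 5) ^ 2 * xO b (2 * z)) ∧
    a3O (sp 2 * b) * a3O b ^ 2 = xO b (2 / 5) ^ 3 ∧ a1O (sp 2 * b) * a3O b = xO b (2 / 5) * a1O b

/-- Part B over `Om`. -/
def S_XOm : Prop := ∀ (n t : ℕ) [Ine n t] (b : Ideal (OO n t)), G15 b → XOm b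

/-- The Legendre coordinate `(℘(z) - ℘(T))/(℘(T') - ℘(T))`, `T`, `T'` of order two. -/
def leO {n t : ℕ} (b : Ideal (OO n t)) (T T' z : ℂ) : Om :=
  ofC ((wpC b z - wpC b T) / (wpC b T' - wpC b T))

/-- The Legendre coordinate at ALL primes `Q` not above `2`: the points of order prime to `Q` (part D or R). -/
def S_Leg : Prop :=
  ∀ (n t : ℕ) [Ine n t] (Q : Ideal ZZ), Npr Q → ¬ MP Q 2 → ∀ b : Ideal (OO n t), b ≠ ⊥ →
    ∀ T T' : ℂ, 2 * T ∈ Lam b → T ∉ Lam b → 2 * T' ∈ Lam b → T' ∉ Lam b → T - T' ∉ Lam b →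
    ∀ δ : Ideal (OO n t), δ ≠ ⊥ → ¬ Abv Q δ → ∀ z z' : ℂ, z ∈ Lam (δ * b) → z' ∈ Lam (δ * b) →
      z ∉ Lam b → z' ∉ Lam b → VP Q (leO b T T' z) ∧
      (MP Q (leO b T T' z - leO b T T' z') → z - z' ∈ Lam b ∨ z + z' ∈ Lam b)

/-- `S_R2`, first half (without the divisibility of `A1` by `2`), proved in part R, used by part D and by
`S_E1` - `S_E4`. -/
def S_R2a : Prop :=
  ∀ (n t : ℕ) [Ine n t],
    (∀ P : Ideal ZZ, Ab2 P → GQ n t P ∧ ∀ b : Ideal (OO n t), G15 b → MP P (a1O b)) ∧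
    ∃ B : ℕ, 0 < B ∧ ∀ Q : Ideal ZZ, Npr Q → ¬ MP Q (B : Om) → GQ n t Q

end Pool.Agent.DN
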