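import Pool.Agent.Lib.DN.G.AllB
import Pool.Agent.Lib.DN.PI.Top

/-!
# THEOREM DN: the final theorem

`mDN : ThmDN` (DN/Defs), no hypotheses.
-/

set_option autoImplicit false

namespace Pool.Agent.DN

/-- The inputs of Part I. -/
theorem mAllIn : PI.AllIn where
  O1 := aO1
  O2 := aO2
  O6 := aO6
  O7 := aO7
  O9 := aO9
  L1 := aL1
  L2 := aL2
  B1 := aB1
  B7 := aB7
  R1 := aR1
  E1 := H3.hE1
  E6 := H3.hE6
  E7 := H3.hE7
  E8 := H3.hE8
  E9 := H3.hE9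
  GR := G.aGR
  GM := G.aGMF
  G3 := G.aG3F
  G := G.aG
  H := H3.bH

/-- **Theorem DN.** -/
theorem mDN : ThmDN := PI.thmDN_of mAllIn

end Pool.Agent.DN
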